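import Pool.Agent.Lib.MP_6b2d39_agUn.BaseM

/-!
THEOREM U, two scales: multiplicities `≤ M`; the points with multiplicity `≤ A` have a fixed part of
the mass.
-/

set_option autoImplicit false

namespace Pool.Agent.Lib.MP_6b2d39_agU2

/-- numbers for the abstract rows: `A` bounds the multiplicities of the small points, `M` bounds all
multiplicities, `z` = first row, `Q` = slope -/
structure At (A M z Q X W : ℕ) : Prop where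
  hA : 1 ≤ A
  hAM : A ≤ M
  hQ : 8 ≤ Q
  hz : 128 * A * Q ≤ z
  hX : 13 * Real.log (3 * A) + 16 ≤ X
  hzX : 80 * A * X ≤ z
  hMW : M ≤ W
  hW1 : 10 ^ 14 * (2 * A ^ 2 / z + 2) ^ 2 * X ^ 3 ≤ W
  hW2 : 10 ^ 8 * A * X ≤ W
  hW3 : 10 ^ 21 * z ^ 3 ≤ W ^ 4
  hE : 10 * ((2 * W + A ^ 2) * X) ≤ M * z

/-- abstract rows -/
structure RwT (A z Q T : ℕ) (R : ℕ → ℤ) : Prop where
  a0 : R 0 = z
  a1 : ∀ c < 3 * A, R c - R (c + 1) = Q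
  a2 : ∀ c, c + 1 < T → (Q : ℤ) ≤ 2 * (R c - R (c + 1))
  a3 : 1 ≤ R (T - 1)
  a4 : 1 ≤ T

/-- numbers for the triangle of side `N` and the step `y = x ^ q` -/
structure Nt (A M N q X W : ℕ) : Prop where
  hA : 1 ≤ A
  hAM : A ≤ M
  hq : 3 ≤ q
  hqN : 3200 * M * q ≤ N
  hX : 13 * Real.log (3 * A) + 16 ≤ X
  hzX : 160 * A * X ≤ q * N
  hMW : M ≤ W
  hW0 : 8 * W ≤ N
  hW1 : 10 ^ 14 * (4 * A ^ 2 / (q * N) + 2) ^ 2 * X ^ 3 ≤ W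
  hW2 : 10 ^ 8 * A * X ≤ W
  hW3 : 10 ^ 21 * (q * N) ^ 3 ≤ W ^ 4
  hE : 20 * ((2 * W + A ^ 2) * X) ≤ M * (q * N)

end Pool.Agent.Lib.MP_6b2d39_agU2
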