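import Pool.Agent.Lib.MP_6b2d39_agU2.Base2

set_option autoImplicit false

namespace Pool.Agent.Lib.MP_6b2d39_agU2

/-- `log (x + 2) ^ 12 ≤ 10 ^ 14 x` -/
private theorem cm_log {x : ℝ} (hx : 1 ≤ x) : Real.log (x + 2) ^ 12 ≤ 10 ^ 14 * x := by
  have h0 : (0 : ℝ) ≤ x + 2 := by linarith
  have h1 : Real.log (x + 2) ≤ (x + 2) ^ (1 / 12 : ℝ) / (1 / 12 : ℝ) :=
    Real.log_le_rpow_div h0 (by norm_num)
  have h2 : 0 ≤ Real.log (x + 2) := Real.log_nonneg (by linarith)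
  have h3 : Real.log (x + 2) ^ 12 ≤ ((x + 2) ^ (1 / 12 : ℝ) / (1 / 12 : ℝ)) ^ 12 :=
    pow_le_pow_left₀ h2 h1 12
  have h4 : ((x + 2) ^ (1 / 12 : ℝ)) ^ 12 = x + 2 := by
    rw [← Real.rpow_natCast, ← Real.rpow_mul h0]
    norm_num
  have h5 : ((x + 2) ^ (1 / 12 : ℝ) / (1 / 12 : ℝ)) ^ 12 = 12 ^ 12 * (x + 2) := by
    rw [div_pow, h4]
    ring
  rw [h5] at h3
  have h6 : (12 : ℝ) ^ 12 * (x + 2) ≤ 12 ^ 12 * (3 * x) :=
    mul_le_mul_of_nonneg_left (by linarith) (by norm_num)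
  have h7 : (12 : ℝ) ^ 12 * (3 * x) ≤ 10 ^ 14 * x := by
    have : (12 : ℝ) ^ 12 * (3 * x) = (12 ^ 12 * 3) * x := by ring
    rw [this]
    exact mul_le_mul_of_nonneg_right (by norm_num) (by linarith)
  linarith

/-- the case analysis for `t = 4 A ^ 2 / (q N)` -/
private theorem cm_t {a m b n q l : ℝ} (ha : 1 ≤ a) (hm : a ≤ m) (hl : 1 ≤ l) (hn : 1 ≤ n)
    (hq : 1 ≤ q) (h5 : 10 ^ 90 * (a ^ 4 * m ^ 2 * l ^ 3) ≤ n ^ 5) (h1 : 10 ^ 40 * (a * l ^ 3) ≤ n)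
    (hb : 10 ^ 90 * (a ^ 4 * l ^ 3) ≤ b * n ^ 3)
    (hc : n ≤ 6400 * m * q ∨ n ≤ 8 * 10 ^ 25 * q ^ 3 ∨ b ≤ q ^ 2) :
    10 ^ 21 * (16 * a ^ 4 * l ^ 3) ≤ q ^ 2 * n ^ 3 := by
  have ha0 : 0 < a := by linarith
  have hm0 : 0 < m := by linarith
  have hl0 : 0 < l := by linarith
  have hn0 : 0 < n := by linarith
  have hq0 : 0 < q := by linarith
  rcases hc with hc | hc | hc
  · -- `n ^ 2 ≤ 6400 ^ 2 m ^ 2 q ^ 2`
    have e1 : n ^ 2 ≤ (6400 * m * q) ^ 2 := pow_le_pow_left₀ hn0.le hc 2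
    have e2 : n ^ 2 * (10 ^ 21 * (16 * a ^ 4 * l ^ 3)) ≤
        (6400 * m * q) ^ 2 * (10 ^ 21 * (16 * a ^ 4 * l ^ 3)) :=
      mul_le_mul_of_nonneg_right e1 (by positivity)
    have e3 : (6400 * m * q) ^ 2 * (10 ^ 21 * (16 * a ^ 4 * l ^ 3)) =
        (6400 ^ 2 * 10 ^ 21 * 16) * (a ^ 4 * m ^ 2 * l ^ 3) * q ^ 2 := by ring
    have e4 : (6400 ^ 2 * 10 ^ 21 * 16) * (a ^ 4 * m ^ 2 * l ^ 3) ≤ n ^ 5 := by
      refine le_trans ?_ h5
      exact mul_le_mul_of_nonneg_right (by norm_num) (by positivity)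
    have e5 : (6400 ^ 2 * 10 ^ 21 * 16) * (a ^ 4 * m ^ 2 * l ^ 3) * q ^ 2 ≤ n ^ 5 * q ^ 2 :=
      mul_le_mul_of_nonneg_right e4 (by positivity)
    have e6 : n ^ 5 * q ^ 2 = n ^ 2 * (q ^ 2 * n ^ 3) := by ring
    have e7 : n ^ 2 * (10 ^ 21 * (16 * a ^ 4 * l ^ 3)) ≤ n ^ 2 * (q ^ 2 * n ^ 3) := by
      rw [← e6]
      linarith
    exact le_of_mul_le_mul_left e7 (by positivity)
  · -- cube the inequality
    have e1 : n ^ 2 ≤ (8 * 10 ^ 25 * q ^ 3) ^ 2 := pow_le_pow_left₀ hn0.le hc 2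
    have e2 : 10 ^ 90 * (a ^ 6 * l ^ 3) ≤ n ^ 5 := by
      refine le_trans ?_ h5
      have e3 : a ^ 4 * a ^ 2 ≤ a ^ 4 * m ^ 2 :=
        mul_le_mul_of_nonneg_left (pow_le_pow_left₀ ha0.le hm 2) (by positivity)
      have e4 : a ^ 6 * l ^ 3 ≤ a ^ 4 * m ^ 2 * l ^ 3 := by
        have e5 : a ^ 6 = a ^ 4 * a ^ 2 := by ring
        rw [e5]
        exact mul_le_mul_of_nonneg_right e3 (by positivity)
      exact mul_le_mul_of_nonneg_left e4 (by positivity)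
    have e3 : (10 ^ 90 * (a ^ 6 * l ^ 3)) ^ 2 ≤ (n ^ 5) ^ 2 :=
      pow_le_pow_left₀ (by positivity) e2 2
    have e4 : 10 ^ 40 * l ^ 3 ≤ n := by
      refine le_trans ?_ h1
      have : 1 * l ^ 3 ≤ a * l ^ 3 := mul_le_mul_of_nonneg_right ha (by positivity)
      linarith
    have e5 : (10 ^ 90 * (a ^ 6 * l ^ 3)) ^ 2 * (10 ^ 40 * l ^ 3) ≤ (n ^ 5) ^ 2 * n :=
      mul_le_mul e3 e4 (by positivity) (by positivity)
    have e6 : (10 ^ 21 * (16 * a ^ 4 * l ^ 3)) ^ 3 * n ^ 2 ≤ (q ^ 2 * n ^ 3) ^ 3 * n ^ 2 := by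
      have f1 : (10 ^ 21 * (16 * a ^ 4 * l ^ 3)) ^ 3 * n ^ 2 ≤
          (10 ^ 21 * (16 * a ^ 4 * l ^ 3)) ^ 3 * (8 * 10 ^ 25 * q ^ 3) ^ 2 :=
        mul_le_mul_of_nonneg_left e1 (by positivity)
      have f2 : (10 ^ 21 * (16 * a ^ 4 * l ^ 3)) ^ 3 * (8 * 10 ^ 25 * q ^ 3) ^ 2 =
          (10 ^ 63 * 16 ^ 3 * 64 * 10 ^ 50) * (a ^ 12 * l ^ 9) * q ^ 6 := by ring
      have f3 : (10 ^ 63 * 16 ^ 3 * 64 * 10 ^ 50) * (a ^ 12 * l ^ 9) ≤
          (10 ^ 90 * (a ^ 6 * l ^ 3)) ^ 2 * (10 ^ 40 * l ^ 3) := by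
        have f4 : (10 ^ 90 * (a ^ 6 * l ^ 3)) ^ 2 * (10 ^ 40 * l ^ 3) =
            (10 ^ 220) * (a ^ 12 * l ^ 9) := by ring
        rw [f4]
        exact mul_le_mul_of_nonneg_right (by norm_num) (by positivity)
      have f5 : (10 ^ 63 * 16 ^ 3 * 64 * 10 ^ 50) * (a ^ 12 * l ^ 9) * q ^ 6 ≤
          (n ^ 5) ^ 2 * n * q ^ 6 := mul_le_mul_of_nonneg_right (f3.trans e5) (by positivity)
      have f6 : (q ^ 2 * n ^ 3) ^ 3 * n ^ 2 = (n ^ 5) ^ 2 * n * q ^ 6 := by ring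
      rw [f6]
      linarith
    have e7 := le_of_mul_le_mul_right e6 (by positivity)
    exact (pow_le_pow_iff_left₀ (by positivity) (by positivity) (by norm_num)).1 e7
  · have e1 : b * n ^ 3 ≤ q ^ 2 * n ^ 3 := mul_le_mul_of_nonneg_right hc (by positivity)
    have e2 : 10 ^ 21 * (16 * a ^ 4 * l ^ 3) = (10 ^ 21 * 16) * (a ^ 4 * l ^ 3) := by ring
    have e3 : (10 ^ 21 * 16) * (a ^ 4 * l ^ 3) ≤ 10 ^ 90 * (a ^ 4 * l ^ 3) :=
      mul_le_mul_of_nonneg_right (by norm_num) (by positivity)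
    linarith

/-- the choice of the numbers -/
theorem ch_m {A M N : ℕ} {B : ℝ} (hA : 1 ≤ A) (hAM : A ≤ M) (hB : 1 ≤ B)
    (hNM : 10 ^ 214 * (M : ℝ) ≤ N)
    (hN5 : 10 ^ 214 * ((A : ℝ) ^ 4 * (M : ℝ) ^ 2 * Real.log (A + 2) ^ 3) ≤ (N : ℝ) ^ 5)
    (hNB : 10 ^ 90 * ((A : ℝ) ^ 4 * Real.log (A + 2) ^ 3) ≤ B * (N : ℝ) ^ 3) :
    ∃ q X : ℕ, Nt A A N q X (N / 8) ∧ 3200 * M * q ≤ N ∧ M ≤ N / 8 ∧
      (q : ℝ) ^ 2 ≤ 10 ^ 10 * B := by
  classical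
  have ha : (1 : ℝ) ≤ A := by exact_mod_cast hA
  have hm : (A : ℝ) ≤ M := by exact_mod_cast hAM
  have hlg := cm_log ha
  obtain ⟨l, hl⟩ : ∃ l, l = Real.log ((A : ℝ) + 2) := ⟨_, rfl⟩
  rw [← hl] at hN5 hlg hNB
  have hl1 : 1 ≤ l := by
    rw [hl, Real.le_log_iff_exp_le (by linarith)]
    have := Real.exp_one_lt_d9
    linarith
  have hl0 : 0 < l := by linarith
  have hM1 : (1 : ℝ) ≤ M := ha.trans hm
  have hn1 : (1 : ℝ) ≤ N := by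
    have : (10 : ℝ) ^ 214 * 1 ≤ 10 ^ 214 * M := mul_le_mul_of_nonneg_left hM1 (by positivity)
    have h2 : (1 : ℝ) ≤ 10 ^ 214 * 1 := by norm_num
    linarith
  have hn0 : (0 : ℝ) < N := by linarith
  -- `N ≥ 10 ^ 40 A l ^ 3`
  have hN1 : 10 ^ 40 * ((A : ℝ) * l ^ 3) ≤ N := by
    have e1 : (10 ^ 40 * ((A : ℝ) * l ^ 3)) ^ 5 ≤ (N : ℝ) ^ 5 := by
      have e2 : (10 ^ 40 * ((A : ℝ) * l ^ 3)) ^ 5 = 10 ^ 200 * ((A : ℝ) ^ 5 * l ^ 3) * l ^ 12 := by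
        ring
      have e3 : 10 ^ 200 * ((A : ℝ) ^ 5 * l ^ 3) * l ^ 12 ≤
          10 ^ 200 * ((A : ℝ) ^ 5 * l ^ 3) * (10 ^ 14 * A) :=
        mul_le_mul_of_nonneg_left hlg (by positivity)
      have e4 : 10 ^ 200 * ((A : ℝ) ^ 5 * l ^ 3) * (10 ^ 14 * A) =
          10 ^ 214 * ((A : ℝ) ^ 4 * (A : ℝ) ^ 2 * l ^ 3) := by ring
      have e5 : (A : ℝ) ^ 4 * (A : ℝ) ^ 2 * l ^ 3 ≤ (A : ℝ) ^ 4 * (M : ℝ) ^ 2 * l ^ 3 :=
        mul_le_mul_of_nonneg_right (mul_le_mul_of_nonneg_left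
          (pow_le_pow_left₀ (by linarith) hm 2) (by positivity)) (by positivity)
      have e6 : 10 ^ 214 * ((A : ℝ) ^ 4 * (A : ℝ) ^ 2 * l ^ 3) ≤
          10 ^ 214 * ((A : ℝ) ^ 4 * (M : ℝ) ^ 2 * l ^ 3) :=
        mul_le_mul_of_nonneg_left e5 (by positivity)
      rw [e2]
      linarith
    exact (pow_le_pow_iff_left₀ (by positivity) (by positivity) (by norm_num)).1 e1
  have hl3 : l ≤ l ^ 3 := by nlinarith [sq_nonneg l, mul_pos hl0 hl0]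
  have hl31 : 1 ≤ l ^ 3 := one_le_pow₀ hl1
  have hAl : (A : ℝ) ≤ A * l ^ 3 := by nlinarith
  have hAl2 : (A : ℝ) * l ≤ A * l ^ 3 := mul_le_mul_of_nonneg_left hl3 (by linarith)
  have hl4 : l ^ 3 ≤ A * l ^ 3 := by nlinarith
  -- the number `X`
  obtain ⟨X, hX⟩ : ∃ X : ℕ, X = ⌈13 * Real.log (3 * A) + 16⌉₊ := ⟨_, rfl⟩
  have hX1 : 13 * Real.log (3 * A) + 16 ≤ X := by rw [hX]; exact Nat.le_ceil _
  have hlog3 : Real.log (3 * A) ≤ 2 * l := by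
    have e1 : Real.log (3 * (A : ℝ)) ≤ Real.log (((A : ℝ) + 2) ^ 2) := by
      apply Real.log_le_log (by positivity)
      nlinarith
    rw [Real.log_pow] at e1
    push_cast at e1
    rw [hl]
    exact e1
  have hlog0 : 0 ≤ Real.log (3 * A) := Real.log_nonneg (by linarith)
  have hX2 : (X : ℝ) ≤ 45 * l := by
    have := Nat.ceil_lt_add_one (by positivity : 0 ≤ 13 * Real.log (3 * A) + 16)
    rw [hX]
    linarith
  have hX0 : (0 : ℝ) ≤ X := by positivity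
  -- the number `q`
  let p : ℕ → Prop := fun q => 3200 * M * q ≤ N ∧ 10 ^ 25 * q ^ 3 ≤ N ∧ (q : ℝ) ^ 2 ≤ 10 ^ 10 * B
  have hNbig : 10 ^ 40 ≤ (N : ℝ) := by
    have : (10 : ℝ) ^ 40 * 1 ≤ 10 ^ 40 * ((A : ℝ) * l ^ 3) :=
      mul_le_mul_of_nonneg_left (by linarith) (by positivity)
    linarith
  have hNn : 10 ^ 40 ≤ N := by exact_mod_cast hNbig
  have hp : p 10000 := by
    refine ⟨?_, ?_, ?_⟩
    · have e1 : 3200 * (M : ℝ) * 10000 ≤ N := by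
        refine le_trans ?_ hNM
        have : 3200 * (M : ℝ) * 10000 = (3200 * 10000) * M := by ring
        rw [this]
        exact mul_le_mul_of_nonneg_right (by norm_num) (by linarith)
      exact_mod_cast e1
    · calc 10 ^ 25 * 10000 ^ 3 ≤ 10 ^ 40 := by norm_num
        _ ≤ N := hNn
    · have e1 : (10 : ℝ) ^ 10 * 1 ≤ 10 ^ 10 * B := mul_le_mul_of_nonneg_left hB (by positivity)
      refine le_trans ?_ e1
      norm_num
  obtain ⟨q, hq⟩ : ∃ q, q = Nat.findGreatest p N := ⟨_, rfl⟩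
  have hle : 10000 ≤ N := le_trans (by norm_num) hNn
  have hpq : p q := by rw [hq]; exact Nat.findGreatest_spec hle hp
  have hq4 : 10000 ≤ q := by rw [hq]; exact Nat.le_findGreatest hle hp
  obtain ⟨hq1, hq2, hq3⟩ := hpq
  have hM0 : 1 ≤ M := hA.trans hAM
  have hqN : q + 1 ≤ N := by
    have : 3200 * 1 * q ≤ 3200 * M * q := Nat.mul_le_mul_right _ (Nat.mul_le_mul_left _ hM0)
    omega
  have hnp : ¬ p (q + 1) := by
    have h1 : Nat.findGreatest p N < q + 1 := by omega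
    exact Nat.findGreatest_is_greatest h1 hqN
  have hqr : (10000 : ℝ) ≤ q := by exact_mod_cast hq4
  have hq0 : (0 : ℝ) < q := by linarith
  have hc : (N : ℝ) ≤ 6400 * M * q ∨ (N : ℝ) ≤ 8 * 10 ^ 25 * (q : ℝ) ^ 3 ∨ B ≤ (q : ℝ) ^ 2 := by
    by_cases h1 : 3200 * M * (q + 1) ≤ N
    · right
      by_cases h2 : 10 ^ 25 * (q + 1) ^ 3 ≤ N
      · right
        have h3 : ¬ (((q + 1 : ℕ) : ℝ) ^ 2 ≤ 10 ^ 10 * B) := fun h3 => hnp ⟨h1, h2, h3⟩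
        rw [not_le] at h3
        have h4 : ((q + 1 : ℕ) : ℝ) ^ 2 ≤ (2 * (q : ℝ)) ^ 2 := by
          push_cast
          exact pow_le_pow_left₀ (by positivity) (by linarith) 2
        have h5 : (2 * (q : ℝ)) ^ 2 = 4 * (q : ℝ) ^ 2 := by ring
        have h6 : (10 : ℝ) ^ 10 = 10000000000 := by norm_num
        rw [h6] at h3
        linarith
      · left
        have h3 : N ≤ 10 ^ 25 * (q + 1) ^ 3 := (not_le.1 h2).le
        have h4 : (N : ℝ) ≤ 10 ^ 25 * ((q : ℝ) + 1) ^ 3 := by exact_mod_cast h3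
        have h5 : ((q : ℝ) + 1) ^ 3 ≤ (2 * q) ^ 3 :=
          pow_le_pow_left₀ (by positivity) (by linarith) 3
        have h6 : (10 : ℝ) ^ 25 * ((q : ℝ) + 1) ^ 3 ≤ 10 ^ 25 * (2 * q) ^ 3 :=
          mul_le_mul_of_nonneg_left h5 (by positivity)
        have h7 : (10 : ℝ) ^ 25 * (2 * (q : ℝ)) ^ 3 = 8 * 10 ^ 25 * (q : ℝ) ^ 3 := by ring
        linarith
    · left
      have h3 : N ≤ 3200 * M * (q + 1) := (not_le.1 h1).le
      have h4 : (N : ℝ) ≤ 3200 * M * (q + 1) := by exact_mod_cast h3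
      have h5 : 3200 * (M : ℝ) * (q + 1) ≤ 3200 * M * (2 * q) :=
        mul_le_mul_of_nonneg_left (by linarith) (by positivity)
      linarith
  have hN5' : 10 ^ 90 * ((A : ℝ) ^ 4 * (M : ℝ) ^ 2 * l ^ 3) ≤ (N : ℝ) ^ 5 := by
    refine le_trans ?_ hN5
    exact mul_le_mul_of_nonneg_right (by norm_num) (by positivity)
  have ht := cm_t ha hm hl1 hn1 (by linarith) hN5' hN1 hNB hc
  -- the window
  obtain ⟨W, hW⟩ : ∃ W, W = N / 8 := ⟨_, rfl⟩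
  have hW1 : 8 * W ≤ N := by rw [hW]; exact Nat.mul_div_le N 8
  have hW2 : (N : ℝ) / 9 ≤ W := by
    have h1 : N < 8 * (W + 1) := by rw [hW]; exact Nat.lt_mul_div_succ N (by norm_num)
    have h2 : (N : ℝ) < 8 * (W + 1) := by exact_mod_cast h1
    have h3 : (10 : ℝ) ^ 40 = 10000000000000000000000000000000000000000 := by norm_num
    rw [h3] at hNbig
    linarith
  have hWr : 8 * (W : ℝ) ≤ N := by exact_mod_cast hW1
  have hqNpos : 0 < (q : ℝ) * N := by positivity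
  have hqN1 : (N : ℝ) ≤ q * N := by nlinarith
  have h40 : (10 : ℝ) ^ 40 = 10000000000000000000000000000000000000000 := by norm_num
  rw [h40] at hN1 hNbig
  rw [← hW]
  have hMW : M ≤ W := by
    have e1 : 9 * (M : ℝ) ≤ N := by
      refine le_trans ?_ hNM
      exact mul_le_mul_of_nonneg_right (by norm_num) (by linarith)
    have e2 : (M : ℝ) ≤ W := by linarith
    exact_mod_cast e2
  refine ⟨q, X, ⟨hA, le_rfl, by omega, ?_, hX1, ?_, hAM.trans hMW, hW1, ?_, ?_, ?_, ?_⟩, hq1, hMW,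
    hq3⟩
  · exact (Nat.mul_le_mul_right _ (Nat.mul_le_mul_left _ hAM)).trans hq1
  · -- `160 A X ≤ q N`
    have e1 : 160 * (A : ℝ) * X ≤ q * N := by
      have e2 : 160 * (A : ℝ) * X ≤ 160 * A * (45 * l) :=
        mul_le_mul_of_nonneg_left hX2 (by positivity)
      have e3 : 160 * (A : ℝ) * (45 * l) = 7200 * (A * l) := by ring
      linarith
    exact_mod_cast e1
  · -- `hW1`
    obtain ⟨t, htd⟩ : ∃ t : ℝ, t = 4 * (A : ℝ) ^ 2 / (q * N) := ⟨_, rfl⟩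
    have ht0 : 0 ≤ t := by rw [htd]; positivity
    have e0 : ((4 * A ^ 2 / (q * N) : ℕ) : ℝ) ≤ t := by
      have := Nat.cast_div_le (α := ℝ) (m := 4 * A ^ 2) (n := q * N)
      push_cast at this
      rw [htd]
      exact this
    have e1 : 10 ^ 21 * (t ^ 2 * l ^ 3) ≤ N := by
      have e2 : t ^ 2 * ((q : ℝ) * N) ^ 2 = 16 * (A : ℝ) ^ 4 := by
        rw [htd, div_pow]
        field_simp
        ring
      have e3 : 10 ^ 21 * (t ^ 2 * l ^ 3) * ((q : ℝ) ^ 2 * (N : ℝ) ^ 2) ≤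
          N * ((q : ℝ) ^ 2 * (N : ℝ) ^ 2) := by
        have e4 : 10 ^ 21 * (t ^ 2 * l ^ 3) * ((q : ℝ) ^ 2 * (N : ℝ) ^ 2) =
            10 ^ 21 * (t ^ 2 * ((q : ℝ) * N) ^ 2 * l ^ 3) := by ring
        have e5 : N * ((q : ℝ) ^ 2 * (N : ℝ) ^ 2) = (q : ℝ) ^ 2 * (N : ℝ) ^ 3 := by ring
        rw [e4, e2, e5]
        exact ht
      exact le_of_mul_le_mul_right e3 (by positivity)
    have e2 : (X : ℝ) ^ 3 ≤ 91125 * l ^ 3 := by
      have := pow_le_pow_left₀ hX0 hX2 3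
      calc (X : ℝ) ^ 3 ≤ (45 * l) ^ 3 := this
        _ = 91125 * l ^ 3 := by ring
    have e3 : (((4 * A ^ 2 / (q * N) : ℕ) : ℝ) + 2) ^ 2 ≤ 2 * t ^ 2 + 8 := by
      have f1 : (((4 * A ^ 2 / (q * N) : ℕ) : ℝ) + 2) ^ 2 ≤ (t + 2) ^ 2 :=
        pow_le_pow_left₀ (by positivity) (by linarith) 2
      nlinarith [sq_nonneg (t - 2)]
    have e4 : (10 : ℝ) ^ 14 * (((4 * A ^ 2 / (q * N) : ℕ) : ℝ) + 2) ^ 2 * (X : ℝ) ^ 3 ≤
        10 ^ 14 * (2 * t ^ 2 + 8) * (91125 * l ^ 3) :=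
      mul_le_mul (mul_le_mul_of_nonneg_left e3 (by positivity)) e2 (by positivity) (by positivity)
    have e5 : (10 : ℝ) ^ 14 * (2 * t ^ 2 + 8) * (91125 * l ^ 3) =
        18225000000000000000 * (t ^ 2 * l ^ 3) + 72900000000000000000 * l ^ 3 := by ring
    have e6 : (10 : ℝ) ^ 21 = 1000000000000000000000 := by norm_num
    rw [e6] at e1
    have e7 : 0 ≤ t ^ 2 * l ^ 3 := by positivity
    have e8 : (10 : ℝ) ^ 14 * (((4 * A ^ 2 / (q * N) : ℕ) : ℝ) + 2) ^ 2 * (X : ℝ) ^ 3 ≤ W := by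
      rw [e5] at e4
      linarith
    have e9 : ((10 ^ 14 * (4 * A ^ 2 / (q * N) + 2) ^ 2 * X ^ 3 : ℕ) : ℝ) ≤ (W : ℝ) := by
      push_cast
      norm_num at e8 ⊢
      exact e8
    exact_mod_cast e9
  · -- `hW2`
    have e1 : (10 : ℝ) ^ 8 * A * X ≤ W := by
      have e2 : (10 : ℝ) ^ 8 * A * X ≤ 10 ^ 8 * A * (45 * l) :=
        mul_le_mul_of_nonneg_left hX2 (by positivity)
      have e3 : (10 : ℝ) ^ 8 * A * (45 * l) = 4500000000 * (A * l) := by ring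
      linarith
    have e5 : ((10 ^ 8 * A * X : ℕ) : ℝ) ≤ (W : ℝ) := by
      push_cast
      norm_num at e1 ⊢
      exact e1
    exact_mod_cast e5
  · -- `hW3`
    have e1 : (10 : ℝ) ^ 25 * (q : ℝ) ^ 3 ≤ N := by exact_mod_cast hq2
    have e2 : ((N : ℝ) / 9) ^ 4 ≤ (W : ℝ) ^ 4 := pow_le_pow_left₀ (by positivity) hW2 4
    have e3 : (10 : ℝ) ^ 21 * ((q : ℝ) * N) ^ 3 ≤ (W : ℝ) ^ 4 := by
      refine le_trans ?_ e2
      have e4 : (10 : ℝ) ^ 21 * ((q : ℝ) * N) ^ 3 = 10 ^ 21 * (q : ℝ) ^ 3 * (N : ℝ) ^ 3 := by ring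
      have e5 : ((N : ℝ) / 9) ^ 4 = N / 6561 * (N : ℝ) ^ 3 := by ring
      rw [e4, e5]
      refine mul_le_mul_of_nonneg_right ?_ (by positivity)
      have e6 : (10 : ℝ) ^ 25 = 10 ^ 21 * 10000 := by norm_num
      rw [e6] at e1
      have e7 : 0 ≤ (10 : ℝ) ^ 21 * (q : ℝ) ^ 3 := by positivity
      linarith
    have e5 : ((10 ^ 21 * (q * N) ^ 3 : ℕ) : ℝ) ≤ ((W ^ 4 : ℕ) : ℝ) := by
      push_cast
      norm_num at e3 ⊢
      exact e3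
    exact_mod_cast e5
  · -- `hE`
    have hlA : l ≤ 2 * A := by
      have e1 : l ≤ (A : ℝ) + 1 := by
        rw [hl]
        have := Real.log_le_sub_one_of_pos (by linarith : (0 : ℝ) < (A : ℝ) + 2)
        linarith
      linarith
    have e1 : 20 * ((2 * (W : ℝ) + (A : ℝ) ^ 2) * X) ≤ A * (q * N) := by
      have e2 : 20 * ((2 * (W : ℝ) + (A : ℝ) ^ 2) * X) ≤
          20 * ((N / 4 + (A : ℝ) ^ 2) * (45 * l)) := by
        refine mul_le_mul_of_nonneg_left ?_ (by norm_num)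
        exact mul_le_mul (by linarith) hX2 hX0 (by positivity)
      have e3 : 20 * (((N : ℝ) / 4 + (A : ℝ) ^ 2) * (45 * l)) = 225 * (l * N) + 900 * (A * (A * l)) := by
        ring
      have e4 : l * N ≤ 2 * A * N := mul_le_mul_of_nonneg_right hlA hn0.le
      have e5 : (A : ℝ) * (A * l) ≤ A * N := mul_le_mul_of_nonneg_left (by linarith) (by linarith)
      have e6 : (A : ℝ) * (10000 * N) ≤ A * (q * N) :=
        mul_le_mul_of_nonneg_left (mul_le_mul_of_nonneg_right hqr hn0.le) (by linarith)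
      have e7 : 0 ≤ (A : ℝ) * N := by positivity
      have e8 : (A : ℝ) * (10000 * N) = 10000 * (A * N) := by ring
      have e9 : 2 * (A : ℝ) * N = 2 * (A * N) := by ring
      rw [e3] at e2
      linarith
    exact_mod_cast e1

end Pool.Agent.Lib.MP_6b2d39_agU2
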