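import Pool.Agent.Lib.MP_6b2d39_agUn.Early

/-!
THEOREM U, many scales: the early phase in decreasing order of the multiplicities. A point `j` needs
only room for itself when it is placed.
-/

set_option autoImplicit false

namespace Pool.Agent.Lib.MP_6b2d39_agU2

open Pool.Agent.Lib.MP_6b2d39_agUn Pool.Agent.Lib.MP_6b2d39_agArr

variable {ι : Type} [DecidableEq ι]

/-- the early phase for the points of `O`, largest multiplicity first -/
theorem early_dec {R : ℕ → ℤ} {m : ι → ℕ} {v0 : ℤ} {B z Q : ℕ} (hQ : 8 ≤ Q) (hz : 1 ≤ z)
    (hB : 1 ≤ B) {J Z : Finset ι} :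
    ∀ O : Finset ι, Disjoint (J ∪ Z) O →
      (∀ j ∈ O, ((B : ℤ) + m j) * z ≤ v0 + ms m ((J ∪ O).filter fun i => m i < m j)) →
      ∀ (y : ℕ) (D : ℕ → ℤ), Inv R m v0 B z Q (J ∪ O) y D →
      ∃ (y' : ℕ) (D' : ℕ → ℤ), y' ≤ y ∧ Inv R m v0 B z Q J y' D' ∧
        (Cert m (J ∪ Z) y' D' → Cert m (J ∪ O ∪ Z) y D) := by
  intro O
  induction O using Finset.strongInduction with
  | H O ih =>
    intro hdis hO y D h
    rcases Finset.eq_empty_or_nonempty O with h0 | hne
    · subst h0
      rw [Finset.union_empty] at h ⊢
      exact ⟨y, D, le_rfl, h, id⟩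
    · obtain ⟨j, hj, hmax⟩ := Finset.exists_max_image O m hne
      have hjJ : j ∉ J := fun hh =>
        (Finset.disjoint_left.1 hdis) (Finset.mem_union_left _ hh) hj
      have hjZ : j ∉ Z := fun hh =>
        (Finset.disjoint_left.1 hdis) (Finset.mem_union_right _ hh) hj
      have hins : J ∪ O = (J ∪ O.erase j) ∪ {j} := by
        rw [Finset.union_assoc]
        congr 1
        rw [Finset.union_comm, ← Finset.insert_eq, Finset.insert_erase hj]
      have hd1 : Disjoint (J ∪ O.erase j ∪ Z) {j} := by
        rw [Finset.disjoint_singleton_right, Finset.mem_union, Finset.mem_union]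
        rintro ((h1 | h1) | h1)
        · exact hjJ h1
        · exact (Finset.notMem_erase j O) h1
        · exact hjZ h1
      have hmass : ((B : ℤ) + m j) * z ≤ v0 + ms m (J ∪ O.erase j) := by
        refine (hO j hj).trans ?_
        have h1 : ms m ((J ∪ O).filter fun i => m i < m j) ≤ ms m (J ∪ O.erase j) := by
          refine Finset.sum_le_sum_of_subset_of_nonneg ?_ fun _ _ _ => by positivity
          intro i hi
          rw [Finset.mem_filter, Finset.mem_union] at hi
          rw [Finset.mem_union, Finset.mem_erase]
          rcases hi.1 with h2 | h2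
          · exact Or.inl h2
          · refine Or.inr ⟨fun hij => ?_, h2⟩
            rw [hij] at hi
            exact absurd hi.2 (lt_irrefl _)
        linarith
      rw [hins] at h
      obtain ⟨y1, D1, hy1, hI1, hC1⟩ := early (Z := Z) (μ := m j) hQ hz hB hmass {j} hd1
        (fun i hi => by rw [Finset.mem_singleton.1 hi]) y D h
      obtain ⟨y2, D2, hy2, hI2, hC2⟩ := ih (O.erase j) (Finset.erase_ssubset hj)
        (Finset.disjoint_of_subset_right (Finset.erase_subset _ _) hdis) (fun i hi => by
          have hiO := Finset.mem_of_mem_erase hi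
          refine (hO i hiO).trans ?_
          have h1 : ms m ((J ∪ O).filter fun k => m k < m i) ≤
              ms m ((J ∪ O.erase j).filter fun k => m k < m i) := by
            refine Finset.sum_le_sum_of_subset_of_nonneg ?_ fun _ _ _ => by positivity
            intro k hk
            rw [Finset.mem_filter, Finset.mem_union] at hk
            rw [Finset.mem_filter, Finset.mem_union, Finset.mem_erase]
            refine ⟨?_, hk.2⟩
            rcases hk.1 with h2 | h2
            · exact Or.inl h2
            · refine Or.inr ⟨fun hkj => ?_, h2⟩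
              rw [hkj] at hk
              have := hmax i hiO
              have := hk.2
              omega
          linarith) y1 D1 hI1
      refine ⟨y2, D2, hy2.trans hy1, hI2, fun hC => ?_⟩
      rw [hins]
      exact hC1 (hC2 hC)

end Pool.Agent.Lib.MP_6b2d39_agU2
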