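import Pool.Agent.Lib.MP_6b2d39_agU2.EndT
import Pool.Agent.Lib.MP_6b2d39_agU2.EarlyM

set_option autoImplicit false

namespace Pool.Agent.Lib.MP_6b2d39_agU2

open Pool.Agent.Lib.MP_6b2d39_agUn Pool.Agent.Lib.MP_6b2d39_agArr

variable {ι : Type} [DecidableEq ι]

private theorem em_rw {R : ℕ → ℤ} {m : ι → ℕ} {v0 : ℤ} {A z Q : ℕ} {J : Finset ι}
    {T y : ℕ} {D : ℕ → ℤ} (hR : RwT A z Q T R) (h : Inv R m v0 (3 * A + 1) z Q J y D) :
    RwT A z Q y D :=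
  ⟨by rw [h.e0 0 (by omega), hR.a0], fun c hc => by
    rw [h.e0 c (by omega), h.e0 (c + 1) (by omega)]
    exact hR.a1 c hc, h.e1, h.e3, h.e2⟩

/-- `v0 ≤ -W`: big points in decreasing order, then `ar_negT` -/
theorem ar_negM {A z Q X W T : ℕ} (h : At A A z Q X W) {R : ℕ → ℤ} (hR : RwT A z Q T R)
    {m : ι → ℕ} {J O : Finset ι} (hJO : Disjoint J O) (hm : ∀ i ∈ J, m i ≤ A) {v0 : ℤ}
    (hbig : ∀ j ∈ O, (((3 * A + 1 : ℕ) : ℤ) + m j) * z ≤
      v0 + ms m ((J ∪ O).filter fun i => m i < m j))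
    (hs : ∑ c ∈ Finset.range T, R c = v0 + ms m (J ∪ O))
    (hmass : 40 * (A : ℤ) * z ≤ v0 + ms m J) (h1 : v0 ≤ -(W : ℤ))
    (h2 : -(2 * (W : ℤ)) ≤ v0) : Cert m (J ∪ O) T R := by
  have hz1 : 1 ≤ z := by
    have h3 := h.hz
    have h4 := h.hQ
    have h5 := h.hA
    have h6 : 1 * 1 ≤ A * Q := Nat.mul_le_mul h5 (by omega)
    have h7 : 128 * A * Q = 128 * (A * Q) := by ring
    omega
  have hI00 : Inv R m v0 (3 * A + 1) z Q (J ∪ O) T R :=
    ⟨fun _ _ => rfl, hR.a2, hR.a4, hR.a3, hR.a0.le, hs⟩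
  obtain ⟨y, D, -, hI, hC⟩ := early_dec (Z := ∅) h.hQ hz1 (by omega) O
    (by rw [Finset.union_empty]; exact hJO) hbig T R hI00
  rw [Finset.union_empty, Finset.union_empty] at hC
  refine hC ?_
  have h3 := ar_negT h (em_rw hR hI) (Finset.disjoint_empty_right J) hm
    (fun i hi => absurd hi (Finset.notMem_empty i)) (v0 := v0)
    (by rw [Finset.union_empty]; exact hI.e5) hmass h1 h2
  rwa [Finset.union_empty] at h3

/-- `v0 ≥ W`, `Z` simple points -/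
theorem ar_posM {A z Q X W T : ℕ} (h : At A A z Q X W) {R : ℕ → ℤ} (hR : RwT A z Q T R)
    {m : ι → ℕ} {J O Z : Finset ι} (hJO : Disjoint J O) (hJZ : Disjoint (J ∪ O) Z)
    (hm : ∀ i ∈ J, m i ≤ A) (hZ : ∀ i ∈ Z, m i = 1)
    (hbig : ∀ j ∈ O, (((3 * A + 1 : ℕ) : ℤ) + m j) * z ≤
      Z.card + ms m ((J ∪ O).filter fun i => m i < m j))
    (hs : ∑ c ∈ Finset.range T, R c = Z.card + ms m (J ∪ O))
    (hmass : 40 * (A : ℤ) * z ≤ Z.card + ms m J)
    (h1 : W ≤ Z.card) (h2 : Z.card ≤ W + A ^ 2) : Cert m (J ∪ O ∪ Z) T R := by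
  have hz1 : 1 ≤ z := by
    have h3 := h.hz
    have h4 := h.hQ
    have h5 := h.hA
    have h6 : 1 * 1 ≤ A * Q := Nat.mul_le_mul h5 (by omega)
    have h7 : 128 * A * Q = 128 * (A * Q) := by ring
    omega
  have hI00 : Inv R m (Z.card : ℤ) (3 * A + 1) z Q (J ∪ O) T R :=
    ⟨fun _ _ => rfl, hR.a2, hR.a4, hR.a3, hR.a0.le, hs⟩
  have hd : Disjoint (J ∪ Z) O := by
    rw [Finset.disjoint_union_left]
    exact ⟨hJO, (hJZ.mono_left Finset.subset_union_right).symm⟩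
  obtain ⟨y, D, -, hI, hC⟩ := early_dec (Z := Z) h.hQ hz1 (by omega) O hd hbig T R hI00
  refine hC ?_
  have h3 := ar_posT h (em_rw hR hI) (Finset.disjoint_empty_right J)
    (Z := Z) (by rw [Finset.union_empty]; exact hJZ.mono_left Finset.subset_union_left) hm
    (fun i hi => absurd hi (Finset.notMem_empty i)) hZ
    (by rw [Finset.union_empty]; exact hI.e5) hmass h1 h2
  rwa [Finset.union_empty] at h3

end Pool.Agent.Lib.MP_6b2d39_agU2
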