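import Pool.Agent.Lib.MP_6b2d39_agU2.MainM
import Pool.Agent.Lib.MP_6b2d39_agUe.MainM
import Pool.Agent.Lib.MP_6b2d39_agUp.P2Final

/-!
THEOREM U+ / all scales, one constant and one set of quantifiers.
-/

set_option autoImplicit false

namespace Pool.Agent.Lib.MP_6b2d39_agU2

open MvPolynomial Pool.Agent.Lib.MP_6b2d39_agUn Pool.Agent.Lib.MP_6b2d39_agCr

/-- no conditions: the system is the space of all forms of degree `d` -/
theorem zero_mult {n : ℕ} {μ : Fin n → ℕ} (h : ∑ i, μ i ^ 2 = 0) (d : ℕ) :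
    General (fun P => (Module.finrank ℂ (curves d μ P) : ℤ) = max (vd d μ) 0) := by
  have h0 : ∀ i, μ i = 0 := by
    intro i
    have h1 := (Finset.sum_eq_zero_iff.1 h) i (Finset.mem_univ i)
    exact pow_eq_zero_iff (two_ne_zero) |>.1 h1
  refine general_nonspecial_of_le (fun _ => ![0, 0, 1]) ?_
  have h1 := finrank_curves_affine d μ (fun (_ : Fin n) (_ : Fin 2) => (0 : ℂ))
  rw [h1]
  have h2 := Submodule.finrank_mono (MP_6b2d39_ag.fatSystem_le (d := d) μ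
    (fun (_ : Fin n) (_ : Fin 2) => (0 : ℂ)))
  rw [MP_6b2d39_ag.finrank_restrictTotalDegree] at h2
  have h3 : vd d μ = ((d + 2).choose 2 : ℤ) := by
    unfold vd
    simp only [h0]
    simp
  rw [h3]
  exact le_trans (by exact_mod_cast h2) (le_max_left _ _)

/-- THEOREM U+ and all scales, one constant -/
theorem all_final : ∃ C : ℝ, ∀ (n M : ℕ) (μ : Fin n → ℕ), 1 ≤ M → (∀ i, μ i ≤ M) →
    (∀ (d : ℕ) (W : ℝ),
      W = C * ((M : ℝ) ^ (9 / 8 : ℝ) + (M : ℝ) ^ 6 / ((d : ℝ) + 1) ^ 4) *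
        Real.log (((d : ℝ) + 1) / M + 2) ^ 3 →
      General (fun P => max (vd d μ) 0 ≤ (Module.finrank ℂ (curves d μ P) : ℤ) ∧
        (Module.finrank ℂ (curves d μ P) : ℝ) ≤ max ((vd d μ : ℤ) : ℝ) 0 + W ∧
        (W ≤ |((vd d μ : ℤ) : ℝ)| →
          (Module.finrank ℂ (curves d μ P) : ℤ) = max (vd d μ) 0))) ∧
    (∀ (A : ℕ) (B : ℝ), 1 ≤ A → A ≤ M → 1 ≤ B →
      (∀ m : ℕ, A ≤ m → m ≤ M → C * (m : ℝ) ^ 2 * B * ((∑ i, μ i ^ 2 : ℕ) : ℝ) ≤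
        ((∑ i ∈ Finset.univ.filter (fun i => μ i ≤ m), μ i ^ 2 : ℕ) : ℝ) ^ 2) →
      (C * (A : ℝ) ^ 4 * Real.log (A + 2) ^ 3 ≤
          B * ((∑ i, μ i ^ 2 : ℕ) : ℝ) ^ (3 / 2 : ℝ) →
        ∃ d0 : ℕ, ∀ d : ℕ, d ≠ d0 →
          General (fun P => (Module.finrank ℂ (curves d μ P) : ℤ) = max (vd d μ) 0)) ∧
      ((A : ℝ) ≤ B → ∀ d : ℕ,
        General (fun P => (Module.finrank ℂ (curves d μ P) : ℤ) = max (vd d μ) 0))) := by
  obtain ⟨C1, h1⟩ := MP_6b2d39_agUp.all_mult_up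
  obtain ⟨C2, h21, h2⟩ := many_scales
  obtain ⟨C, hC⟩ : ∃ C, C = max (max C1 C2) (10 ^ 6) := ⟨_, rfl⟩
  have e1 : C1 ≤ C := by rw [hC]; exact (le_max_left _ _).trans (le_max_left _ _)
  have e2 : C2 ≤ C := by rw [hC]; exact (le_max_right _ _).trans (le_max_left _ _)
  have e3 : 10 ^ 6 ≤ C := by rw [hC]; exact le_max_right _ _
  refine ⟨C, fun n M μ hM hμ => ⟨fun d W hW => ?_, fun A B hA hAM hB hS => ⟨fun hS2 => ?_,
    fun hAB d => ?_⟩⟩⟩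
  · have hr : 0 ≤ ((d : ℝ) + 1) / M := by positivity
    have hl : 0 ≤ Real.log (((d : ℝ) + 1) / M + 2) := Real.log_nonneg (by linarith)
    have hA : 0 ≤ ((M : ℝ) ^ (9 / 8 : ℝ) + (M : ℝ) ^ 6 / ((d : ℝ) + 1) ^ 4) *
        Real.log (((d : ℝ) + 1) / M + 2) ^ 3 := by positivity
    obtain ⟨W1, hW1⟩ : ∃ W1, W1 = C1 * ((M : ℝ) ^ (9 / 8 : ℝ) + (M : ℝ) ^ 6 / ((d : ℝ) + 1) ^ 4) *
        Real.log (((d : ℝ) + 1) / M + 2) ^ 3 := ⟨_, rfl⟩
    have hWW : W1 ≤ W := by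
      rw [hW, hW1, mul_assoc, mul_assoc]
      exact mul_le_mul_of_nonneg_right e1 hA
    refine ((h1 n M μ hM hμ).1 d W1 hW1).mono ?_
    rintro P ⟨h4, h5, h6⟩
    exact ⟨h4, h5.trans (by linarith), fun h => h6 (hWW.trans h)⟩
  · refine h2 n A M B μ hA hAM hμ hB (fun m hm1 hm2 => le_trans ?_ (hS m hm1 hm2)) ?_
    · have hS0 : (0 : ℝ) ≤ ((∑ i, μ i ^ 2 : ℕ) : ℝ) := by positivity
      have hB0 : 0 ≤ B := by linarith
      exact mul_le_mul_of_nonneg_right (mul_le_mul_of_nonneg_right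
        (mul_le_mul_of_nonneg_right e2 (by positivity)) hB0) hS0
    · refine le_trans ?_ hS2
      have hA1 : (1 : ℝ) ≤ A := by exact_mod_cast hA
      have hl : 0 ≤ Real.log ((A : ℝ) + 2) := Real.log_nonneg (by linarith)
      rw [mul_assoc C]
      exact mul_le_mul_of_nonneg_right e2 (by positivity)
  · rcases Nat.eq_zero_or_pos (∑ i, μ i ^ 2) with h0 | h0
    · exact zero_mult h0 d
    · refine MP_6b2d39_agUe.exact_m hA hAM hμ h0 (fun m hm1 hm2 => ?_) d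
      have h3 := hS m hm1 hm2
      have hS0 : (0 : ℝ) ≤ ((∑ i, μ i ^ 2 : ℕ) : ℝ) := by positivity
      have hm0 : (0 : ℝ) ≤ (m : ℝ) ^ 2 := by positivity
      have h4 : (10 : ℝ) ^ 6 * (m : ℝ) ^ 2 * A * ((∑ i, μ i ^ 2 : ℕ) : ℝ) ≤
          C * (m : ℝ) ^ 2 * B * ((∑ i, μ i ^ 2 : ℕ) : ℝ) := by
        refine mul_le_mul_of_nonneg_right ?_ hS0
        refine mul_le_mul (mul_le_mul_of_nonneg_right e3 hm0) hAB (by positivity) ?_
        exact mul_nonneg (le_trans (by norm_num) e3) hm0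
      have h5 := h4.trans h3
      exact_mod_cast h5

end Pool.Agent.Lib.MP_6b2d39_agU2
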