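import Pool.Agent.Lib.MP_6b2d39_agCr.Defs

/-!
THEOREM U, many scales: lowering the multiplicities, the largest first.
-/

set_option autoImplicit false

namespace Pool.Agent.Lib.MP_6b2d39_agU2

open Pool.Agent.Lib.MP_6b2d39_agCr

/-- mass of the points with multiplicity `≤ m` -/
def mle {n : ℕ} (μ : Fin n → ℕ) (m : ℕ) : ℤ :=
  ∑ i ∈ Finset.univ.filter (fun i => μ i ≤ m), (((μ i + 1).choose 2 : ℕ) : ℤ)

private theorem lm_update {n d : ℕ} (μ : Fin n → ℕ) (i : Fin n) (hi : μ i ≠ 0) :
    vd d (Function.update μ i (μ i - 1)) = vd d μ + μ i := by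
  unfold vd
  have h1 : ∑ j, ((μ j + 1).choose 2 : ℤ) =
      ((μ i + 1).choose 2 : ℤ) + ∑ j ∈ Finset.univ.erase i, ((μ j + 1).choose 2 : ℤ) :=
    (Finset.add_sum_erase _ _ (Finset.mem_univ i)).symm
  have h2 : ∑ j, ((Function.update μ i (μ i - 1) j + 1).choose 2 : ℤ) =
      ((Function.update μ i (μ i - 1) i + 1).choose 2 : ℤ) +
        ∑ j ∈ Finset.univ.erase i, ((Function.update μ i (μ i - 1) j + 1).choose 2 : ℤ) :=
    (Finset.add_sum_erase _ _ (Finset.mem_univ i)).symm
  have h3 : ∑ j ∈ Finset.univ.erase i, ((Function.update μ i (μ i - 1) j + 1).choose 2 : ℤ) =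
      ∑ j ∈ Finset.univ.erase i, ((μ j + 1).choose 2 : ℤ) := by
    refine Finset.sum_congr rfl fun j hj => ?_
    rw [Function.update_of_ne (Finset.ne_of_mem_erase hj)]
  have h4 : ((μ i + 1).choose 2 : ℤ) = ((μ i - 1 + 1).choose 2 : ℤ) + μ i := by
    obtain ⟨a, ha⟩ := Nat.exists_eq_succ_of_ne_zero hi
    rw [ha]
    have h5 : (a.succ + 1).choose 2 = (a + 1).choose 1 + (a + 1).choose 2 :=
      Nat.choose_succ_succ (a + 1) 1
    have h6 : a.succ - 1 = a := rfl
    rw [h5, h6, Nat.choose_one_right]
    push_cast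
    ring
  rw [h1, h2, h3, Function.update_self, h4]
  ring

/-- if all multiplicities are `≤ m`, then `mle` is the whole mass -/
theorem mle_all {n d : ℕ} {μ : Fin n → ℕ} {m : ℕ} (h : ∀ i, μ i ≤ m) :
    mle μ m = (((d + 2).choose 2 : ℕ) : ℤ) - vd d μ := by
  unfold mle vd
  rw [Finset.filter_true_of_mem fun i _ => h i]
  ring

private theorem lm_aux {n d M W : ℕ} :
    ∀ (t : ℕ) (μ : Fin n → ℕ), ∑ i, μ i = t → (∀ i, μ i ≤ M) → vd d μ ≤ -(W : ℤ) →
    ∃ μ' : Fin n → ℕ, (∀ i, μ' i ≤ μ i) ∧ vd d μ' ≤ -(W : ℤ) ∧ -((W : ℤ) + M) ≤ vd d μ' ∧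
      ∀ m, min (mle μ m) (((d + 2).choose 2 : ℕ) : ℤ) ≤ mle μ' m := by
  intro t
  induction t with
  | zero =>
    intro μ hs hμ hv
    have h0 : ∀ i, μ i = 0 := fun i =>
      (Finset.sum_eq_zero_iff.1 hs) i (Finset.mem_univ i)
    exfalso
    have h1 : vd d μ = (((d + 2).choose 2 : ℕ) : ℤ) := by
      unfold vd
      have h1 : ∑ i, ((μ i + 1).choose 2 : ℤ) = 0 := by
        refine Finset.sum_eq_zero fun i _ => ?_
        rw [h0 i]
        rfl
      rw [h1, sub_zero]
    have h2 : 0 < (d + 2).choose 2 := Nat.choose_pos (by omega)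
    have h3 : (0 : ℤ) < (((d + 2).choose 2 : ℕ) : ℤ) := by exact_mod_cast h2
    have hW : (0 : ℤ) ≤ W := by positivity
    linarith
  | succ t ih =>
    intro μ hs hμ hv
    by_cases hge : -((W : ℤ) + M) ≤ vd d μ
    · exact ⟨μ, fun i => le_rfl, hv, hge, fun m => min_le_left _ _⟩
    · have hne : (Finset.univ : Finset (Fin n)).Nonempty := by
        by_contra hcon
        rw [Finset.not_nonempty_iff_eq_empty] at hcon
        rw [hcon, Finset.sum_empty] at hs
        omega
      obtain ⟨i, -, himax⟩ := Finset.exists_max_image Finset.univ μ hne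
      have hi : μ i ≠ 0 := by
        intro h0
        have h1 : ∑ j, μ j = 0 := Finset.sum_eq_zero fun j hj => by
          have := himax j hj
          omega
        omega
      have hup : ∀ j, Function.update μ i (μ i - 1) j ≤ μ j := by
        intro j
        by_cases hj : j = i
        · rw [hj, Function.update_self]
          omega
        · rw [Function.update_of_ne hj]
      have hsum : ∑ j, Function.update μ i (μ i - 1) j = t := by
        have h1 : ∑ j, μ j = μ i + ∑ j ∈ Finset.univ.erase i, μ j :=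
          (Finset.add_sum_erase _ _ (Finset.mem_univ i)).symm
        have h2 : ∑ j, Function.update μ i (μ i - 1) j =
            Function.update μ i (μ i - 1) i +
              ∑ j ∈ Finset.univ.erase i, Function.update μ i (μ i - 1) j :=
          (Finset.add_sum_erase _ _ (Finset.mem_univ i)).symm
        have h3 : ∑ j ∈ Finset.univ.erase i, Function.update μ i (μ i - 1) j =
            ∑ j ∈ Finset.univ.erase i, μ j := by
          refine Finset.sum_congr rfl fun j hj => ?_
          rw [Function.update_of_ne (Finset.ne_of_mem_erase hj)]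
        rw [h2, h3, Function.update_self]
        omega
      have hv' : vd d (Function.update μ i (μ i - 1)) ≤ -(W : ℤ) := by
        rw [lm_update μ i hi]
        have h1 : (μ i : ℤ) ≤ M := by exact_mod_cast hμ i
        linarith
      obtain ⟨μ', h1, h2, h3, h4⟩ := ih (Function.update μ i (μ i - 1)) hsum
        (fun j => (hup j).trans (hμ j)) hv'
      refine ⟨μ', fun j => (h1 j).trans (hup j), h2, h3, fun m => le_trans ?_ (h4 m)⟩
      -- one step
      refine le_min ?_ (min_le_right _ _)
      rcases Nat.lt_or_ge m (μ i) with hm | hm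
      · refine (min_le_left _ _).trans ?_
        unfold mle
        have hsub : Finset.univ.filter (fun j => μ j ≤ m) ⊆
            Finset.univ.filter (fun j => Function.update μ i (μ i - 1) j ≤ m) := by
          intro j hj
          rw [Finset.mem_filter] at hj ⊢
          exact ⟨hj.1, (hup j).trans hj.2⟩
        refine le_trans ?_ (Finset.sum_le_sum_of_subset_of_nonneg hsub fun _ _ _ => by positivity)
        refine le_of_eq (Finset.sum_congr rfl fun j hj => ?_)
        rw [Finset.mem_filter] at hj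
        have hji : j ≠ i := fun hji => by
          rw [hji] at hj
          omega
        rw [Function.update_of_ne hji]
      · refine (min_le_right _ _).trans ?_
        rw [mle_all (d := d) (fun j => ((hup j).trans (himax j (Finset.mem_univ j))).trans hm)]
        have hW : (0 : ℤ) ≤ W := by positivity
        linarith

/-- lowering the multiplicities, the largest first: the masses `mle μ m` do not decrease below
`(d + 2).choose 2` -/
theorem lower_m {n d M W : ℕ} {μ : Fin n → ℕ} (hμ : ∀ i, μ i ≤ M) (hv : vd d μ ≤ -(W : ℤ)) :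
    ∃ μ' : Fin n → ℕ, (∀ i, μ' i ≤ μ i) ∧ vd d μ' ≤ -(W : ℤ) ∧ -((W : ℤ) + M) ≤ vd d μ' ∧
      ∀ m, min (mle μ m) (((d + 2).choose 2 : ℕ) : ℤ) ≤ mle μ' m :=
  lm_aux (∑ i, μ i) μ rfl hμ hv

/-- adding `k` points of multiplicity `A ≤ m` -/
theorem mle_append {n k A m : ℕ} (hA : A ≤ m) (μ : Fin n → ℕ) :
    mle (Fin.append μ (fun _ : Fin k => A)) m =
      mle μ m + k * (((A + 1).choose 2 : ℕ) : ℤ) := by
  unfold mle
  rw [Finset.sum_filter, Finset.sum_filter, Fin.sum_univ_add]
  simp only [Fin.append_left, Fin.append_right, if_pos hA, Finset.sum_const, Finset.card_univ,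
    Fintype.card_fin, nsmul_eq_mul]

end Pool.Agent.Lib.MP_6b2d39_agU2
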