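import Pool.Agent.Lib.MP_6b2d39_agUn.Lower
import Pool.Agent.Lib.MP_6b2d39_agUn.DimU

set_option autoImplicit false

namespace Pool.Agent.Lib.MP_6b2d39_agU2

open Pool.Agent.Lib.MP_6b2d39_agUn Pool.Agent.Lib.MP_6b2d39_agCr

/-- mass of the points of `s` -/
def mc {n : ℕ} (s : Finset (Fin n)) (μ : Fin n → ℕ) : ℤ := ∑ i ∈ s, (((μ i + 1).choose 2 : ℕ) : ℤ)

private theorem lt_update {n d : ℕ} (μ : Fin n → ℕ) (i : Fin n) (hi : μ i ≠ 0) :
    vd d (Function.update μ i (μ i - 1)) = vd d μ + μ i := by
  unfold vd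
  have h1 : ∑ j, ((μ j + 1).choose 2 : ℤ) =
      ((μ i + 1).choose 2 : ℤ) + ∑ j ∈ Finset.univ.erase i, ((μ j + 1).choose 2 : ℤ) :=
    (Finset.add_sum_erase _ _ (Finset.mem_univ i)).symm
  have h2 : ∑ j, ((Function.update μ i (μ i - 1) j + 1).choose 2 : ℤ) =
      ((Function.update μ i (μ i - 1) i + 1).choose 2 : ℤ) +
        ∑ j ∈ Finset.univ.erase i, ((Function.update μ i (μ i - 1) j + 1).choose 2 : ℤ) :=
    (Finset.add_sum_erase _ _ (Finset.mem_univ i)).symm
  have h3 : ∑ j ∈ Finset.univ.erase i, ((Function.update μ i (μ i - 1) j + 1).choose 2 : ℤ) =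
      ∑ j ∈ Finset.univ.erase i, ((μ j + 1).choose 2 : ℤ) := by
    refine Finset.sum_congr rfl fun j hj => ?_
    rw [Function.update_of_ne (Finset.ne_of_mem_erase hj)]
  have h4 : ((μ i + 1).choose 2 : ℤ) = ((μ i - 1 + 1).choose 2 : ℤ) + μ i := by
    obtain ⟨a, ha⟩ := Nat.exists_eq_succ_of_ne_zero hi
    rw [ha]
    have h5 : (a.succ + 1).choose 2 = (a + 1).choose 1 + (a + 1).choose 2 :=
      Nat.choose_succ_succ (a + 1) 1
    have h6 : a.succ - 1 = a := rfl
    rw [h5, h6, Nat.choose_one_right]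
    push_cast
    ring
  rw [h1, h2, h3, Function.update_self, h4]
  ring

private theorem lt_aux {n d M W : ℕ} {s : Finset (Fin n)} :
    ∀ (t : ℕ) (μ : Fin n → ℕ), ∑ i, μ i = t → (∀ i, μ i ≤ M) → vd d μ ≤ -(W : ℤ) →
    ∃ μ' : Fin n → ℕ, (∀ i, μ' i ≤ μ i) ∧ vd d μ' ≤ -(W : ℤ) ∧ -((W : ℤ) + M) ≤ vd d μ' ∧
      min (mc s μ) (((d + 2).choose 2 : ℕ) : ℤ) ≤ mc s μ' := by
  intro t
  induction t with
  | zero =>
    intro μ hs hμ hv
    have h0 : ∀ i, μ i = 0 := fun i =>
      (Finset.sum_eq_zero_iff.1 hs) i (Finset.mem_univ i)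
    exfalso
    have h1 : vd d μ = (((d + 2).choose 2 : ℕ) : ℤ) := by
      unfold vd
      have h1 : ∑ i, ((μ i + 1).choose 2 : ℤ) = 0 := by
        refine Finset.sum_eq_zero fun i _ => ?_
        rw [h0 i]
        rfl
      rw [h1, sub_zero]
    have h2 : 0 < (d + 2).choose 2 := Nat.choose_pos (by omega)
    have h3 : (0 : ℤ) < (((d + 2).choose 2 : ℕ) : ℤ) := by exact_mod_cast h2
    have hW : (0 : ℤ) ≤ W := by positivity
    linarith
  | succ t ih =>
    intro μ hs hμ hv
    by_cases hge : -((W : ℤ) + M) ≤ vd d μ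
    · exact ⟨μ, fun i => le_rfl, hv, hge, min_le_left _ _⟩
    · by_cases hbig : ∃ i, i ∉ s ∧ μ i ≠ 0
      · obtain ⟨i, his, hi⟩ := hbig
        have hup : ∀ j, Function.update μ i (μ i - 1) j ≤ μ j := by
          intro j
          by_cases hj : j = i
          · rw [hj, Function.update_self]
            omega
          · rw [Function.update_of_ne hj]
        have hsum : ∑ j, Function.update μ i (μ i - 1) j = t := by
          have h1 : ∑ j, μ j = μ i + ∑ j ∈ Finset.univ.erase i, μ j :=
            (Finset.add_sum_erase _ _ (Finset.mem_univ i)).symm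
          have h2 : ∑ j, Function.update μ i (μ i - 1) j =
              Function.update μ i (μ i - 1) i +
                ∑ j ∈ Finset.univ.erase i, Function.update μ i (μ i - 1) j :=
            (Finset.add_sum_erase _ _ (Finset.mem_univ i)).symm
          have h3 : ∑ j ∈ Finset.univ.erase i, Function.update μ i (μ i - 1) j =
              ∑ j ∈ Finset.univ.erase i, μ j := by
            refine Finset.sum_congr rfl fun j hj => ?_
            rw [Function.update_of_ne (Finset.ne_of_mem_erase hj)]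
          rw [h2, h3, Function.update_self]
          omega
        have hv' : vd d (Function.update μ i (μ i - 1)) ≤ -(W : ℤ) := by
          rw [lt_update μ i hi]
          have h1 : (μ i : ℤ) ≤ M := by exact_mod_cast hμ i
          linarith
        obtain ⟨μ', h1, h2, h3, h4⟩ := ih (Function.update μ i (μ i - 1)) hsum
          (fun j => (hup j).trans (hμ j)) hv'
        refine ⟨μ', fun j => (h1 j).trans (hup j), h2, h3, ?_⟩
        have h5 : mc s (Function.update μ i (μ i - 1)) = mc s μ := by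
          unfold mc
          refine Finset.sum_congr rfl fun j hj => ?_
          have hji : j ≠ i := fun hji => his (hji ▸ hj)
          rw [Function.update_of_ne hji]
        rwa [h5] at h4
      · push Not at hbig
        obtain ⟨μ', h1, h2, h3⟩ := lower_u (M := M) hμ hv
        refine ⟨μ', h1, h2, h3, (min_le_right _ _).trans ?_⟩
        have h4 : mc s μ' = ∑ i, (((μ' i + 1).choose 2 : ℕ) : ℤ) := by
          unfold mc
          refine Finset.sum_subset (Finset.subset_univ s) fun i _ hi => ?_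
          have h5 : μ' i = 0 := by
            have := h1 i
            have := hbig i hi
            omega
          rw [h5]
          rfl
        rw [h4]
        unfold vd at h2
        have hW : (0 : ℤ) ≤ W := by positivity
        linarith

/-- lowering the multiplicities, first outside of `s` -/
theorem lower_t {n d M W : ℕ} (s : Finset (Fin n)) {μ : Fin n → ℕ} (hμ : ∀ i, μ i ≤ M)
    (hv : vd d μ ≤ -(W : ℤ)) :
    ∃ μ' : Fin n → ℕ, (∀ i, μ' i ≤ μ i) ∧ vd d μ' ≤ -(W : ℤ) ∧ -((W : ℤ) + M) ≤ vd d μ' ∧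
      min (mc s μ) (((d + 2).choose 2 : ℕ) : ℤ) ≤ mc s μ' :=
  lt_aux (∑ i, μ i) μ rfl hμ hv

/-- the small points after adding `k` points of multiplicity `A` -/
theorem mc_append {n k A : ℕ} (s : Finset (Fin n)) (μ : Fin n → ℕ) :
    mc ((s.map (Fin.castAddEmb k)) ∪ (Finset.univ.map (Fin.natAddEmb n)))
      (Fin.append μ (fun _ : Fin k => A)) = mc s μ + k * (((A + 1).choose 2 : ℕ) : ℤ) := by
  unfold mc
  rw [Finset.sum_union]
  · rw [Finset.sum_map, Finset.sum_map]
    congr 1
    · refine Finset.sum_congr rfl fun i _ => ?_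
      simp
    · simp
  · rw [Finset.disjoint_left]
    intro x hx hx'
    rw [Finset.mem_map] at hx hx'
    obtain ⟨a, _, rfl⟩ := hx
    obtain ⟨b, _, hb⟩ := hx'
    have h1 := congrArg Fin.val hb
    simp at h1
    have := a.isLt
    omega

end Pool.Agent.Lib.MP_6b2d39_agU2
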