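import Pool.Agent.Lib.MP_6b2d39_agU2.WinT
import Pool.Agent.Lib.MP_6b2d39_agU2.ChT
import Pool.Agent.Lib.MP_6b2d39_agUn.DegMono
import Pool.Agent.Lib.MP_6b2d39_agHx.Main

set_option autoImplicit false

namespace Pool.Agent.Lib.MP_6b2d39_agU2

open Pool.Agent.Lib.MP_6b2d39_agUn Pool.Agent.Lib.MP_6b2d39_agCr

private theorem m2_choose (k : ℕ) : 2 * (((k + 1).choose 2 : ℕ) : ℤ) = (k : ℤ) * (k + 1) := by
  have h1 : 2 * (k + 1).choose 2 = k * (k + 1) := by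
    rw [Nat.choose_two_right, Nat.add_sub_cancel]
    have h2 : 2 ∣ (k + 1) * k := by
      rw [mul_comm]
      exact (Nat.even_mul_succ_self k).two_dvd
    rw [Nat.mul_div_cancel' h2]
    ring
  have h2 : ((2 * (k + 1).choose 2 : ℕ) : ℤ) = ((k * (k + 1) : ℕ) : ℤ) := by rw [h1]
  push_cast at h2
  exact h2

private theorem m2_sq (k : ℕ) : (((k ^ 2 : ℕ) : ℕ) : ℤ) ≤ 2 * (((k + 1).choose 2 : ℕ) : ℤ) := by
  rw [m2_choose]
  push_cast
  nlinarith [Int.natCast_nonneg k]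

private theorem m2_le (k : ℕ) : (((k + 1).choose 2 : ℕ) : ℤ) ≤ (((k ^ 2 : ℕ) : ℕ) : ℤ) := by
  have h1 := m2_choose k
  have h2 : (k : ℤ) ≤ (k : ℤ) * k := by
    rcases Nat.eq_zero_or_pos k with h | h
    · rw [h]
      simp
    · have : (1 : ℤ) ≤ k := by exact_mod_cast h
      nlinarith
  push_cast
  nlinarith

/-- the small points have a part of the mass -/
private theorem m2_mass {n d A : ℕ} {μ : Fin n → ℕ}
    (hS : ∑ i, μ i ^ 2 ≤ 10 * ∑ i ∈ Finset.univ.filter (fun i => μ i ≤ A), μ i ^ 2) :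
    (((d + 2).choose 2 : ℕ) : ℤ) ≤
      20 * (mc (Finset.univ.filter (fun i => μ i ≤ A)) μ + max (vd d μ) 0) := by
  have h1 : ∑ i, (((μ i + 1).choose 2 : ℕ) : ℤ) ≤ ∑ i, ((μ i ^ 2 : ℕ) : ℤ) :=
    Finset.sum_le_sum fun i _ => m2_le (μ i)
  have h2 : ∑ i ∈ Finset.univ.filter (fun i => μ i ≤ A), ((μ i ^ 2 : ℕ) : ℤ) ≤
      2 * mc (Finset.univ.filter (fun i => μ i ≤ A)) μ := by
    unfold mc
    rw [Finset.mul_sum]
    exact Finset.sum_le_sum fun i _ => m2_sq (μ i)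
  have h3 : ∑ i, ((μ i ^ 2 : ℕ) : ℤ) ≤
      10 * ∑ i ∈ Finset.univ.filter (fun i => μ i ≤ A), ((μ i ^ 2 : ℕ) : ℤ) := by
    have h4 : ((∑ i, μ i ^ 2 : ℕ) : ℤ) ≤
        ((10 * ∑ i ∈ Finset.univ.filter (fun i => μ i ≤ A), μ i ^ 2 : ℕ) : ℤ) := by
      exact_mod_cast hS
    rw [Nat.cast_mul, Nat.cast_sum, Nat.cast_sum] at h4
    exact h4
  have h4 : vd d μ = (((d + 2).choose 2 : ℕ) : ℤ) - ∑ i, (((μ i + 1).choose 2 : ℕ) : ℤ) := rfl
  have h5 : vd d μ ≤ max (vd d μ) 0 := le_max_left _ _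
  have h6 : 0 ≤ max (vd d μ) 0 := le_max_right _ _
  linarith

/-- twice the virtual dimension -/
private theorem m2_vd {n d : ℕ} (μ : Fin n → ℕ) :
    2 * ((vd d μ : ℤ) : ℝ) ≤ ((d : ℝ) + 1) * (d + 2) - ((∑ i, μ i ^ 2 : ℕ) : ℝ) := by
  have h1 : ∑ i, ((μ i ^ 2 : ℕ) : ℤ) ≤ 2 * ∑ i, (((μ i + 1).choose 2 : ℕ) : ℤ) := by
    rw [Finset.mul_sum]
    exact Finset.sum_le_sum fun i _ => m2_sq (μ i)
  have h2 := m2_choose (d + 1)
  have h4 : vd d μ = (((d + 2).choose 2 : ℕ) : ℤ) - ∑ i, (((μ i + 1).choose 2 : ℕ) : ℤ) := rfl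
  have h5 : 2 * vd d μ ≤ ((d : ℤ) + 1) * (d + 2) - ((∑ i, μ i ^ 2 : ℕ) : ℤ) := by
    rw [Nat.cast_sum, h4]
    push_cast at h2 h1 ⊢
    have e : d + 1 + 1 = d + 2 := rfl
    rw [e] at h2
    linarith
  exact_mod_cast h5

/-- TWO SCALES: all degrees but one -/
theorem two_scales : ∃ C : ℝ, 1 ≤ C ∧ ∀ (n A M : ℕ) (μ : Fin n → ℕ), 1 ≤ A → A ≤ M →
    (∀ i, μ i ≤ M) →
    ∑ i, μ i ^ 2 ≤ 10 * ∑ i ∈ Finset.univ.filter (fun i => μ i ≤ A), μ i ^ 2 →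
    C * (M : ℝ) ^ 2 ≤ ((∑ i, μ i ^ 2 : ℕ) : ℝ) →
    C * ((A : ℝ) ^ 4 * (M : ℝ) ^ 2 * Real.log (A + 2) ^ 3) ≤
      ((∑ i, μ i ^ 2 : ℕ) : ℝ) ^ (5 / 2 : ℝ) →
    ∃ d0 : ℕ, ∀ d : ℕ, d ≠ d0 →
    General (fun P => (Module.finrank ℂ (curves d μ P) : ℤ) = max (vd d μ) 0) := by
  obtain ⟨K, hK⟩ : ∃ K : ℝ, K = 10 ^ 214 := ⟨_, rfl⟩
  have hK100 : 1000 ≤ K := by rw [hK]; norm_num
  refine ⟨16 * K ^ 2, by nlinarith, fun n A M μ hA hAM hμ hS hS1 hS2 => ?_⟩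
  obtain ⟨S, hSd⟩ : ∃ S : ℝ, S = ((∑ i, μ i ^ 2 : ℕ) : ℝ) := ⟨_, rfl⟩
  rw [← hSd] at hS1 hS2
  have hS0 : 0 ≤ S := by rw [hSd]; positivity
  obtain ⟨σ, hσ⟩ : ∃ σ : ℝ, σ = √S := ⟨_, rfl⟩
  have hσ0 : 0 ≤ σ := by rw [hσ]; exact Real.sqrt_nonneg S
  have hσ2 : σ ^ 2 = S := by rw [hσ]; exact Real.sq_sqrt hS0
  have hM1 : (1 : ℝ) ≤ M := by exact_mod_cast hA.trans hAM
  have hσM : 4 * K * M ≤ σ := by
    have h1 : (4 * K * M) ^ 2 ≤ σ ^ 2 := by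
      rw [hσ2]
      calc (4 * K * (M : ℝ)) ^ 2 = 16 * K ^ 2 * (M : ℝ) ^ 2 := by ring
        _ ≤ S := hS1
    exact (sq_le_sq₀ (by positivity) hσ0).1 h1
  have hσK : 4 * K ≤ σ := by nlinarith
  have hσ5 : S ^ (5 / 2 : ℝ) = σ ^ 5 := by
    rw [← hσ2, ← Real.rpow_natCast σ 2, ← Real.rpow_mul hσ0, ← Real.rpow_natCast σ 5]
    norm_num
  rw [hσ5] at hS2
  -- the large degrees
  have key : ∀ d : ℕ, σ ≤ 4 * ((d : ℝ) + 1) → ((d : ℝ) + 1) / 8 ≤ |((vd d μ : ℤ) : ℝ)| →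
      General (fun P => (Module.finrank ℂ (curves d μ P) : ℤ) = max (vd d μ) 0) := by
    intro d hd hv
    have hN : ((d + 1 : ℕ) : ℝ) = (d : ℝ) + 1 := by push_cast; ring
    obtain ⟨q, X, h⟩ := ch_t (A := A) (M := M) (N := d + 1) hA hAM (by
      rw [hN, ← hK]
      linarith) (by
      rw [hN, ← hK]
      have h1 : σ ^ 5 ≤ (4 * ((d : ℝ) + 1)) ^ 5 := pow_le_pow_left₀ hσ0 hd 5
      have h2 : (4 * ((d : ℝ) + 1)) ^ 5 = 1024 * ((d : ℝ) + 1) ^ 5 := by ring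
      have h3 : 1024 * (K * ((A : ℝ) ^ 4 * (M : ℝ) ^ 2 * Real.log (A + 2) ^ 3)) ≤
          16 * K ^ 2 * ((A : ℝ) ^ 4 * (M : ℝ) ^ 2 * Real.log (A + 2) ^ 3) := by
        have h4 : 0 ≤ Real.log ((A : ℝ) + 2) := Real.log_nonneg (by
          have : (0 : ℝ) ≤ A := by positivity
          linarith)
        have h5 : 0 ≤ (A : ℝ) ^ 4 * (M : ℝ) ^ 2 * Real.log (A + 2) ^ 3 := by positivity
        have h6 : 1024 * K ≤ 16 * K ^ 2 := by nlinarith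
        have h7 := mul_le_mul_of_nonneg_right h6 h5
        linarith
      linarith)
    refine win_t h ?_ hμ (s := Finset.univ.filter (fun i => μ i ≤ A)) (fun i hi => ?_)
      (m2_mass hS) ?_
    · have h1 : (20 : ℝ) ≤ ((d + 1 : ℕ) : ℝ) := by
        rw [hN]
        linarith
      exact_mod_cast h1
    · exact (Finset.mem_filter.1 hi).2
    · have h1 : (((d + 1) / 8 : ℕ) : ℝ) ≤ ((d : ℝ) + 1) / 8 := by
        have := Nat.cast_div_le (α := ℝ) (m := d + 1) (n := 8)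
        rw [hN] at this
        push_cast at this ⊢
        exact this
      have h2 : ((((d + 1) / 8 : ℕ) : ℤ) : ℝ) ≤ ((|vd d μ| : ℤ) : ℝ) := by
        rw [Int.cast_natCast, Int.cast_abs]
        exact h1.trans hv
      exact Int.cast_le.1 h2
  obtain ⟨d0, hd0⟩ := Pool.Agent.Lib.MP_6b2d39_agHx.unique_degree μ
  refine ⟨d0, fun d hd => ?_⟩
  rcases le_or_gt σ (4 * ((d : ℝ) + 1)) with h1 | h1
  · refine key d h1 (le_trans ?_ (hd0 d hd))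
    have : 4 * K ≤ 4 * ((d : ℝ) + 1) := hσK.trans h1
    linarith
  · -- the degree `D`
    obtain ⟨N, hN⟩ : ∃ N : ℕ, N = ⌈σ / 4⌉₊ := ⟨_, rfl⟩
    have hN1 : σ / 4 ≤ N := by rw [hN]; exact Nat.le_ceil _
    have hN2 : (N : ℝ) < σ / 4 + 1 := by
      rw [hN]
      exact Nat.ceil_lt_add_one (by positivity)
    have hNp : 1 ≤ N := by
      have : (1 : ℝ) ≤ N := by linarith
      exact_mod_cast this
    obtain ⟨D, hD⟩ : ∃ D, N = D + 1 := ⟨N - 1, by omega⟩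
    have hDr : (N : ℝ) = (D : ℝ) + 1 := by rw [hD]; push_cast; ring
    rw [hDr] at hN1 hN2
    have hvD : 2 * ((vd D μ : ℤ) : ℝ) ≤ -(σ ^ 2 / 2) := by
      have h2 := m2_vd (d := D) μ
      rw [← hSd, ← hσ2] at h2
      have h3 : ((D : ℝ) + 1) * (D + 2) ≤ (σ / 4 + 1) * (σ / 4 + 2) :=
        mul_le_mul (by linarith) (by linarith) (by positivity) (by positivity)
      nlinarith
    have hvD0 : ((vd D μ : ℤ) : ℝ) < 0 := by
      have : 0 < σ ^ 2 / 2 := by nlinarith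
      linarith
    have hG := key D (by linarith) (by
      rw [abs_of_neg hvD0]
      nlinarith)
    refine hG.mono fun P hP => ?_
    have hvD' : vd D μ < 0 := by exact_mod_cast hvD0
    rw [max_eq_right hvD'.le] at hP
    have hdD : d ≤ D := by
      have h2 : (d : ℝ) + 1 < (D : ℝ) + 1 := by linarith
      have h3 : (d : ℝ) < D := by linarith
      exact_mod_cast h3.le
    have h2 := deg_mono hdD μ P
    have h3 : Module.finrank ℂ (curves D μ P) = 0 := by exact_mod_cast hP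
    rw [h3] at h2
    have h4 : Module.finrank ℂ (curves d μ P) = 0 := Nat.le_zero.1 h2
    have hvd : ((vd d μ : ℤ) : ℝ) < 0 := by
      have h5 := m2_vd (d := d) μ
      rw [← hSd, ← hσ2] at h5
      have h6 : ((d : ℝ) + 1) * (d + 2) ≤ (σ / 4) * (σ / 4 + 1) :=
        mul_le_mul (by linarith) (by linarith) (by positivity) (by positivity)
      nlinarith
    have hvd' : vd d μ < 0 := by exact_mod_cast hvd
    rw [h4, max_eq_right hvd'.le]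
    rfl

end Pool.Agent.Lib.MP_6b2d39_agU2
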