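import Pool.Agent.Lib.MP_6b2d39_agU2.WinM
import Pool.Agent.Lib.MP_6b2d39_agU2.ChM
import Pool.Agent.Lib.MP_6b2d39_agUn.DegMono
import Pool.Agent.Lib.MP_6b2d39_agHx.Main

/-!
THEOREM U, all scales: with `S m = ∑ (μ i) ^ 2` over `μ i ≤ m`, `S = ∑ (μ i) ^ 2`.
-/

set_option autoImplicit false

namespace Pool.Agent.Lib.MP_6b2d39_agU2

open Pool.Agent.Lib.MP_6b2d39_agUn Pool.Agent.Lib.MP_6b2d39_agCr

private theorem mm_choose (k : ℕ) : 2 * (((k + 1).choose 2 : ℕ) : ℤ) = (k : ℤ) * (k + 1) := by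
  have h1 : 2 * (k + 1).choose 2 = k * (k + 1) := by
    rw [Nat.choose_two_right, Nat.add_sub_cancel]
    have h2 : 2 ∣ (k + 1) * k := by
      rw [mul_comm]
      exact (Nat.even_mul_succ_self k).two_dvd
    rw [Nat.mul_div_cancel' h2]
    ring
  have h2 : ((2 * (k + 1).choose 2 : ℕ) : ℤ) = ((k * (k + 1) : ℕ) : ℤ) := by rw [h1]
  push_cast at h2
  exact h2

private theorem mm_sq (k : ℕ) : (((k ^ 2 : ℕ) : ℕ) : ℤ) ≤ 2 * (((k + 1).choose 2 : ℕ) : ℤ) := by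
  rw [mm_choose]
  push_cast
  nlinarith [Int.natCast_nonneg k]

private theorem mm_le (k : ℕ) : (((k + 1).choose 2 : ℕ) : ℤ) ≤ (((k ^ 2 : ℕ) : ℕ) : ℤ) := by
  have h1 := mm_choose k
  have h2 : (k : ℤ) ≤ (k : ℤ) * k := by
    rcases Nat.eq_zero_or_pos k with h | h
    · rw [h]
      simp
    · have : (1 : ℤ) ≤ k := by exact_mod_cast h
      nlinarith
  push_cast
  nlinarith

/-- twice the virtual dimension -/
private theorem mm_vd {n d : ℕ} (μ : Fin n → ℕ) :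
    2 * ((vd d μ : ℤ) : ℝ) ≤ ((d : ℝ) + 1) * (d + 2) - ((∑ i, μ i ^ 2 : ℕ) : ℝ) := by
  have h1 : ∑ i, ((μ i ^ 2 : ℕ) : ℤ) ≤ 2 * ∑ i, (((μ i + 1).choose 2 : ℕ) : ℤ) := by
    rw [Finset.mul_sum]
    exact Finset.sum_le_sum fun i _ => mm_sq (μ i)
  have h2 := mm_choose (d + 1)
  have h4 : vd d μ = (((d + 2).choose 2 : ℕ) : ℤ) - ∑ i, (((μ i + 1).choose 2 : ℕ) : ℤ) := rfl
  have h5 : 2 * vd d μ ≤ ((d : ℤ) + 1) * (d + 2) - ((∑ i, μ i ^ 2 : ℕ) : ℤ) := by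
    rw [Nat.cast_sum, h4]
    push_cast at h2 h1 ⊢
    have e : d + 1 + 1 = d + 2 := rfl
    rw [e] at h2
    linarith
  exact_mod_cast h5

/-- `(d + 1) ^ 2 ≤ 2 v + 2 S` -/
private theorem mm_vd2 {n d : ℕ} (μ : Fin n → ℕ) :
    ((d : ℝ) + 1) ^ 2 ≤ 2 * ((vd d μ : ℤ) : ℝ) + 2 * ((∑ i, μ i ^ 2 : ℕ) : ℝ) := by
  have h1 : ∑ i, (((μ i + 1).choose 2 : ℕ) : ℤ) ≤ ∑ i, ((μ i ^ 2 : ℕ) : ℤ) :=
    Finset.sum_le_sum fun i _ => mm_le (μ i)
  have h2 := mm_choose (d + 1)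
  have h4 : vd d μ = (((d + 2).choose 2 : ℕ) : ℤ) - ∑ i, (((μ i + 1).choose 2 : ℕ) : ℤ) := rfl
  have h5 : ((d : ℤ) + 1) ^ 2 ≤ 2 * vd d μ + 2 * ((∑ i, μ i ^ 2 : ℕ) : ℤ) := by
    rw [Nat.cast_sum, h4]
    push_cast at h2 h1 ⊢
    have e : d + 1 + 1 = d + 2 := rfl
    rw [e] at h2
    nlinarith
  exact_mod_cast h5

/-- the mass of the points `≤ m` -/
private theorem mm_mle {n m : ℕ} (μ : Fin n → ℕ) :
    ((∑ i ∈ Finset.univ.filter (fun i => μ i ≤ m), μ i ^ 2 : ℕ) : ℝ) ≤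
      2 * ((mle μ m : ℤ) : ℝ) := by
  have h1 : ∑ i ∈ Finset.univ.filter (fun i => μ i ≤ m), ((μ i ^ 2 : ℕ) : ℤ) ≤ 2 * mle μ m := by
    unfold mle
    rw [Finset.mul_sum]
    exact Finset.sum_le_sum fun i _ => mm_sq (μ i)
  have h2 : ((∑ i ∈ Finset.univ.filter (fun i => μ i ≤ m), μ i ^ 2 : ℕ) : ℤ) ≤ 2 * mle μ m := by
    rw [Nat.cast_sum]
    exact h1
  exact_mod_cast h2

/-- the inequality for the room of a point of multiplicity about `m`: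
`N ^ 2 ≤ 2 v + 2 σ ^ 2`, `q ≤ 10 ^ 5 b`, `σ ≥ 4 K m b`, `s ≥ 4 K m b σ` -/
private theorem mm_room {m q N v σ b K s : ℝ} (hm : 0 ≤ m) (hq : 0 ≤ q) (hN : 0 ≤ N) (hv : 0 ≤ v)
    (hσ : 0 ≤ σ) (hb : 0 ≤ b) (hK : 10 ^ 20 ≤ K) (h1 : N ^ 2 ≤ 2 * v + 2 * σ ^ 2)
    (h2 : q ≤ 10 ^ 5 * b) (h3 : 4 * K * m * b ≤ σ) (h4 : 4 * K * m * b * σ ≤ 2 * s) :
    80 * m * (q * N) ≤ s + v := by
  obtain ⟨u, hu0, hu⟩ : ∃ u : ℝ, 0 ≤ u ∧ u ^ 2 = 2 * v :=
    ⟨√(2 * v), Real.sqrt_nonneg _, Real.sq_sqrt (by positivity)⟩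
  have e1 : N ≤ u + 2 * σ := by
    have f1 : N ^ 2 ≤ (u + 2 * σ) ^ 2 := by
      have f2 : 0 ≤ u * σ := mul_nonneg hu0 hσ
      nlinarith [sq_nonneg σ]
    exact (sq_le_sq₀ hN (by positivity)).1 f1
  have e2 : 80 * m * (q * N) ≤ 80 * (m * q) * u + 160 * (m * q) * σ := by
    have f1 : 80 * (m * q) * N ≤ 80 * (m * q) * (u + 2 * σ) :=
      mul_le_mul_of_nonneg_left e1 (by positivity)
    linarith
  have e3 : 80 * (m * q) * u ≤ v + 3200 * (m * q) ^ 2 := by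
    nlinarith [sq_nonneg (80 * (m * q) - u)]
  have e4 : m * q ≤ 10 ^ 5 * (m * b) := by
    have := mul_le_mul_of_nonneg_left h2 hm
    linarith
  have hmq : 0 ≤ m * q := mul_nonneg hm hq
  have hmb : 0 ≤ m * b := mul_nonneg hm hb
  have hmbs : 0 ≤ m * b * σ := mul_nonneg hmb hσ
  have e5 : (m * q) ^ 2 ≤ 10 ^ 10 * (m * b) ^ 2 := by
    have f1 := pow_le_pow_left₀ hmq e4 2
    have f2 : (10 ^ 5 * (m * b)) ^ 2 = 10 ^ 10 * (m * b) ^ 2 := by ring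
    rwa [f2] at f1
  have e6 : 4 * K * (m * b) ^ 2 ≤ m * b * σ := by
    have f1 := mul_le_mul_of_nonneg_left h3 hmb
    have f2 : m * b * (4 * K * m * b) = 4 * K * (m * b) ^ 2 := by ring
    rwa [f2] at f1
  have e7 : 10 ^ 20 * (m * b) ^ 2 ≤ K * (m * b) ^ 2 :=
    mul_le_mul_of_nonneg_right hK (by positivity)
  have e8 : 10 ^ 20 * (m * b * σ) ≤ K * (m * b * σ) := mul_le_mul_of_nonneg_right hK hmbs
  have e9 : 160 * (m * q) * σ ≤ 160 * (10 ^ 5 * (m * b)) * σ :=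
    mul_le_mul_of_nonneg_right (by linarith) hσ
  have e10 : 4 * K * m * b * σ = 4 * (K * (m * b * σ)) := by ring
  rw [e10] at h4
  have e11 : 160 * (10 ^ 5 * (m * b)) * σ = 16000000 * (m * b * σ) := by ring
  have e12 : (10 : ℝ) ^ 20 = 100000000000000000000 := by norm_num
  have e13 : (10 : ℝ) ^ 10 = 10000000000 := by norm_num
  rw [e12] at e7 e8
  rw [e13] at e5
  linarith

/-- ALL SCALES: all degrees but one -/
theorem many_scales : ∃ C : ℝ, 1 ≤ C ∧ ∀ (n A M : ℕ) (B : ℝ) (μ : Fin n → ℕ), 1 ≤ A → A ≤ M →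
    (∀ i, μ i ≤ M) → 1 ≤ B →
    (∀ m : ℕ, A ≤ m → m ≤ M → C * (m : ℝ) ^ 2 * B * ((∑ i, μ i ^ 2 : ℕ) : ℝ) ≤
      ((∑ i ∈ Finset.univ.filter (fun i => μ i ≤ m), μ i ^ 2 : ℕ) : ℝ) ^ 2) →
    C * ((A : ℝ) ^ 4 * Real.log (A + 2) ^ 3) ≤
      B * ((∑ i, μ i ^ 2 : ℕ) : ℝ) ^ (3 / 2 : ℝ) →
    ∃ d0 : ℕ, ∀ d : ℕ, d ≠ d0 →
    General (fun P => (Module.finrank ℂ (curves d μ P) : ℤ) = max (vd d μ) 0) := by
  obtain ⟨K, hK⟩ : ∃ K : ℝ, K = 10 ^ 214 := ⟨_, rfl⟩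
  have hK20 : 10 ^ 20 ≤ K := by rw [hK]; norm_num
  have hK90 : 10 ^ 90 * 64 ≤ K := by rw [hK]; norm_num
  have hK1000 : 1000 ≤ K := by rw [hK]; norm_num
  refine ⟨16 * K ^ 2, by nlinarith, fun n A M B μ hA hAM hμ hB hS hS2 => ?_⟩
  obtain ⟨S, hSd⟩ : ∃ S : ℝ, S = ((∑ i, μ i ^ 2 : ℕ) : ℝ) := ⟨_, rfl⟩
  rw [← hSd] at hS hS2
  have hS0 : 0 ≤ S := by rw [hSd]; positivity
  obtain ⟨σ, hσ⟩ : ∃ σ : ℝ, σ = √S := ⟨_, rfl⟩
  have hσ0 : 0 ≤ σ := by rw [hσ]; exact Real.sqrt_nonneg S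
  have hσ2 : σ ^ 2 = S := by rw [hσ]; exact Real.sq_sqrt hS0
  obtain ⟨b, hb⟩ : ∃ b : ℝ, b = √B := ⟨_, rfl⟩
  have hb1 : 1 ≤ b := by rw [hb]; exact Real.one_le_sqrt.2 hB
  have hb2 : b ^ 2 = B := by rw [hb]; exact Real.sq_sqrt (by linarith)
  have hA1 : (1 : ℝ) ≤ A := by exact_mod_cast hA
  have hM1 : (1 : ℝ) ≤ M := by exact_mod_cast hA.trans hAM
  have hl0 : 0 < Real.log ((A : ℝ) + 2) := Real.log_pos (by linarith)
  have hσ3 : S ^ (3 / 2 : ℝ) = σ ^ 3 := by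
    rw [← hσ2, ← Real.rpow_natCast σ 2, ← Real.rpow_mul hσ0, ← Real.rpow_natCast σ 3]
    norm_num
  rw [hσ3] at hS2
  obtain ⟨a, had⟩ : ∃ a : ℝ, a = (A : ℝ) ^ 4 * Real.log (A + 2) ^ 3 := ⟨_, rfl⟩
  have ha0 : 0 < a := by rw [had]; positivity
  rw [← had] at hS2
  have hσpos : 0 < σ := by
    rcases hσ0.lt_or_eq with h | h
    · exact h
    · exfalso
      rw [← h] at hS2
      have : 0 < 16 * K ^ 2 * a := by positivity
      norm_num at hS2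
      linarith
  have hSpos : 0 < S := by rw [← hσ2]; positivity
  -- the scale `m`
  have hsm : ∀ m : ℕ, A ≤ m → m ≤ M → 4 * K * m * b * σ ≤
      ((∑ i ∈ Finset.univ.filter (fun i => μ i ≤ m), μ i ^ 2 : ℕ) : ℝ) := by
    intro m hm1 hm2
    have h1 := hS m hm1 hm2
    have h2 : (4 * K * (m : ℝ) * b * σ) ^ 2 = 16 * K ^ 2 * (m : ℝ) ^ 2 * B * S := by
      rw [← hσ2, ← hb2]
      ring
    rw [← h2] at h1
    exact (sq_le_sq₀ (by positivity) (by positivity)).1 h1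
  have hall : Finset.univ.filter (fun i => μ i ≤ M) = (Finset.univ : Finset (Fin n)) :=
    Finset.filter_true_of_mem fun i _ => hμ i
  have hσM : 4 * K * M * b ≤ σ := by
    have h1 := hsm M hAM le_rfl
    rw [hall, ← hSd, ← hσ2] at h1
    have h2 : σ * (4 * K * M * b) ≤ σ * σ := by
      calc σ * (4 * K * M * b) = 4 * K * M * b * σ := by ring
        _ ≤ σ ^ 2 := h1
        _ = σ * σ := by ring
    exact le_of_mul_le_mul_left h2 hσpos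
  have hKM : 4 * K * M ≤ σ := by
    have h1 : 4 * K * M * 1 ≤ 4 * K * M * b := mul_le_mul_of_nonneg_left hb1 (by positivity)
    linarith
  have hσK : 4 * K ≤ σ := by nlinarith
  -- the large degrees
  have key : ∀ d : ℕ, σ ≤ 4 * ((d : ℝ) + 1) → ((d : ℝ) + 1) / 8 ≤ |((vd d μ : ℤ) : ℝ)| →
      General (fun P => (Module.finrank ℂ (curves d μ P) : ℤ) = max (vd d μ) 0) := by
    intro d hd hv
    have hN : ((d + 1 : ℕ) : ℝ) = (d : ℝ) + 1 := by push_cast; ring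
    have hd0 : (0 : ℝ) ≤ (d : ℝ) + 1 := by positivity
    have hN3 : σ ^ 3 ≤ 64 * ((d : ℝ) + 1) ^ 3 := by
      have h1 := pow_le_pow_left₀ hσ0 hd 3
      have h2 : (4 * ((d : ℝ) + 1)) ^ 3 = 64 * ((d : ℝ) + 1) ^ 3 := by ring
      linarith
    have hB0 : 0 ≤ B := by linarith
    have hNB : 16 * K ^ 2 * a ≤ 64 * (B * ((d : ℝ) + 1) ^ 3) := by
      have h1 := mul_le_mul_of_nonneg_left hN3 hB0
      linarith
    have hN5 : 4 * K ^ 2 * (a * (M : ℝ) ^ 2) ≤ ((d : ℝ) + 1) ^ 5 := by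
      -- `σ ^ 2 ≥ 16 K ^ 2 M ^ 2 B`
      have h1 : 16 * K ^ 2 * (M : ℝ) ^ 2 * B ≤ 16 * ((d : ℝ) + 1) ^ 2 := by
        have h2 : (4 * K * (M : ℝ) * b) ^ 2 ≤ (4 * ((d : ℝ) + 1)) ^ 2 :=
          pow_le_pow_left₀ (by positivity) (hσM.trans hd) 2
        have h3 : (4 * K * (M : ℝ) * b) ^ 2 = 16 * K ^ 2 * (M : ℝ) ^ 2 * B := by
          rw [← hb2]
          ring
        have h4 : (4 * ((d : ℝ) + 1)) ^ 2 = 16 * ((d : ℝ) + 1) ^ 2 := by ring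
        linarith
      have h2 : 16 * K ^ 2 * (M : ℝ) ^ 2 * (16 * K ^ 2 * a) ≤
          16 * K ^ 2 * (M : ℝ) ^ 2 * (64 * (B * ((d : ℝ) + 1) ^ 3)) :=
        mul_le_mul_of_nonneg_left hNB (by positivity)
      have h3 : 16 * K ^ 2 * (M : ℝ) ^ 2 * (64 * (B * ((d : ℝ) + 1) ^ 3)) =
          16 * K ^ 2 * (M : ℝ) ^ 2 * B * (64 * ((d : ℝ) + 1) ^ 3) := by ring
      have h4 : 16 * K ^ 2 * (M : ℝ) ^ 2 * B * (64 * ((d : ℝ) + 1) ^ 3) ≤
          16 * ((d : ℝ) + 1) ^ 2 * (64 * ((d : ℝ) + 1) ^ 3) :=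
        mul_le_mul_of_nonneg_right h1 (by positivity)
      have h5 : 16 * ((d : ℝ) + 1) ^ 2 * (64 * ((d : ℝ) + 1) ^ 3) = 1024 * ((d : ℝ) + 1) ^ 5 := by
        ring
      have h6 : 16 * K ^ 2 * (M : ℝ) ^ 2 * (16 * K ^ 2 * a) =
          256 * K ^ 2 * (K ^ 2 * (a * (M : ℝ) ^ 2)) := by ring
      have h7 : 4096 * (K ^ 2 * (a * (M : ℝ) ^ 2)) ≤ 256 * K ^ 2 * (K ^ 2 * (a * (M : ℝ) ^ 2)) := by
        refine mul_le_mul_of_nonneg_right ?_ (by positivity)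
        nlinarith
      linarith
    obtain ⟨q, X, h, hMq, hMW, hq2⟩ := ch_m (A := A) (M := M) (N := d + 1) (B := B) hA hAM hB (by
      rw [hN, ← hK]
      linarith) (by
      rw [hN, ← hK]
      have h1 : (A : ℝ) ^ 4 * (M : ℝ) ^ 2 * Real.log (A + 2) ^ 3 = a * (M : ℝ) ^ 2 := by
        rw [had]
        ring
      rw [h1]
      have h2 : K * (a * (M : ℝ) ^ 2) ≤ 4 * K ^ 2 * (a * (M : ℝ) ^ 2) := by
        refine mul_le_mul_of_nonneg_right ?_ (by positivity)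
        nlinarith
      linarith) (by
      rw [hN, ← had]
      have h1 : 10 ^ 90 * a ≤ K ^ 2 / 4 * a := by
        refine mul_le_mul_of_nonneg_right ?_ ha0.le
        nlinarith
      linarith)
    have hqb : (q : ℝ) ≤ 10 ^ 5 * b := by
      have h1 : (q : ℝ) ^ 2 ≤ (10 ^ 5 * b) ^ 2 := by
        have h2 : ((10 : ℝ) ^ 5 * b) ^ 2 = 10 ^ 10 * B := by
          rw [← hb2]
          ring
        rw [h2]
        exact hq2
      exact (sq_le_sq₀ (by positivity) (by positivity)).1 h1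
    refine win_m h hMW hMq hμ hAM (fun m hm1 hm2 => ?_) ?_
    · have h1 : ((d : ℝ) + 1) ^ 2 ≤ 2 * max ((vd d μ : ℤ) : ℝ) 0 + 2 * σ ^ 2 := by
        have h2 := mm_vd2 (d := d) μ
        rw [← hSd, ← hσ2] at h2
        have h3 : ((vd d μ : ℤ) : ℝ) ≤ max ((vd d μ : ℤ) : ℝ) 0 := le_max_left _ _
        linarith
      have h2 : 4 * K * m * b ≤ σ := by
        have h3 : (m : ℝ) ≤ M := by exact_mod_cast hm2
        have h4 : 4 * K * (m : ℝ) * b ≤ 4 * K * M * b :=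
          mul_le_mul_of_nonneg_right (mul_le_mul_of_nonneg_left h3 (by positivity)) (by linarith)
        linarith
      have h3 : 4 * K * m * b * σ ≤ 2 * ((mle μ m : ℤ) : ℝ) := (hsm m hm1 hm2).trans (mm_mle μ)
      have h4 := mm_room (m := (m : ℝ)) (q := (q : ℝ)) (N := (d : ℝ) + 1)
        (v := max ((vd d μ : ℤ) : ℝ) 0) (σ := σ) (b := b) (K := K) (s := ((mle μ m : ℤ) : ℝ))
        (by positivity) (by positivity) hd0 (le_max_right _ _) hσ0 (by linarith) hK20 h1 hqb h2 h3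
      have h5 : ((80 * (m : ℤ) * (q * (d + 1) : ℕ) : ℤ) : ℝ) ≤
          ((mle μ m + max (vd d μ) 0 : ℤ) : ℝ) := by
        push_cast
        exact h4
      exact_mod_cast h5
    · have h1 : (((d + 1) / 8 : ℕ) : ℝ) ≤ ((d : ℝ) + 1) / 8 := by
        have := Nat.cast_div_le (α := ℝ) (m := d + 1) (n := 8)
        rw [hN] at this
        push_cast at this ⊢
        exact this
      have h2 : ((((d + 1) / 8 : ℕ) : ℤ) : ℝ) ≤ ((|vd d μ| : ℤ) : ℝ) := by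
        rw [Int.cast_natCast, Int.cast_abs]
        exact h1.trans hv
      exact Int.cast_le.1 h2
  obtain ⟨d0, hd0⟩ := Pool.Agent.Lib.MP_6b2d39_agHx.unique_degree μ
  refine ⟨d0, fun d hd => ?_⟩
  rcases le_or_gt σ (4 * ((d : ℝ) + 1)) with h1 | h1
  · refine key d h1 (le_trans ?_ (hd0 d hd))
    have : 4 * K ≤ 4 * ((d : ℝ) + 1) := hσK.trans h1
    linarith
  · -- the degree `D`
    obtain ⟨N, hN⟩ : ∃ N : ℕ, N = ⌈σ / 4⌉₊ := ⟨_, rfl⟩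
    have hN1 : σ / 4 ≤ N := by rw [hN]; exact Nat.le_ceil _
    have hN2 : (N : ℝ) < σ / 4 + 1 := by
      rw [hN]
      exact Nat.ceil_lt_add_one (by positivity)
    have hNp : 1 ≤ N := by
      have : (1 : ℝ) ≤ N := by linarith
      exact_mod_cast this
    obtain ⟨D, hD⟩ : ∃ D, N = D + 1 := ⟨N - 1, by omega⟩
    have hDr : (N : ℝ) = (D : ℝ) + 1 := by rw [hD]; push_cast; ring
    rw [hDr] at hN1 hN2
    have hvD : 2 * ((vd D μ : ℤ) : ℝ) ≤ -(σ ^ 2 / 2) := by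
      have h2 := mm_vd (d := D) μ
      rw [← hSd, ← hσ2] at h2
      have h3 : ((D : ℝ) + 1) * (D + 2) ≤ (σ / 4 + 1) * (σ / 4 + 2) :=
        mul_le_mul (by linarith) (by linarith) (by positivity) (by positivity)
      nlinarith
    have hvD0 : ((vd D μ : ℤ) : ℝ) < 0 := by
      have : 0 < σ ^ 2 / 2 := by positivity
      linarith
    have hG := key D (by linarith) (by
      rw [abs_of_neg hvD0]
      nlinarith)
    refine hG.mono fun P hP => ?_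
    have hvD' : vd D μ < 0 := by exact_mod_cast hvD0
    rw [max_eq_right hvD'.le] at hP
    have hdD : d ≤ D := by
      have h2 : (d : ℝ) + 1 < (D : ℝ) + 1 := by linarith
      have h3 : (d : ℝ) < D := by linarith
      exact_mod_cast h3.le
    have h2 := deg_mono hdD μ P
    have h3 : Module.finrank ℂ (curves D μ P) = 0 := by exact_mod_cast hP
    rw [h3] at h2
    have h4 : Module.finrank ℂ (curves d μ P) = 0 := Nat.le_zero.1 h2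
    have hvd : ((vd d μ : ℤ) : ℝ) < 0 := by
      have h5 := mm_vd (d := d) μ
      rw [← hSd, ← hσ2] at h5
      have h6 : ((d : ℝ) + 1) * (d + 2) ≤ (σ / 4) * (σ / 4 + 1) :=
        mul_le_mul (by linarith) (by linarith) (by positivity) (by positivity)
      nlinarith
    have hvd' : vd d μ < 0 := by exact_mod_cast hvd
    rw [h4, max_eq_right hvd'.le]
    rfl

end Pool.Agent.Lib.MP_6b2d39_agU2
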