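import Pool.Agent.Lib.MP_6b2d39_agU2.EndM
import Pool.Agent.Lib.MP_6b2d39_agU2.RowT
import Pool.Agent.Lib.MP_6b2d39_agU2.LowM
import Pool.Agent.Lib.MP_6b2d39_agUn.EmpT
import Pool.Agent.Lib.MP_6b2d39_agUn.AppU
import Pool.Agent.Lib.MP_6b2d39_agUn.Lower
import Pool.Agent.Lib.MP_6b2d39_agHl.ToGen
import Pool.Agent.Lib.MP_6b2d39_agHy.EmpCut

set_option autoImplicit false

namespace Pool.Agent.Lib.MP_6b2d39_agU2

open Pool.Agent.Lib.MP_6b2d39_agUn Pool.Agent.Lib.MP_6b2d39_agArr Pool.Agent.Lib.MP_6b2d39_agNw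
  Pool.Agent.Lib.MP_6b2d39_agHl Pool.Agent.Lib.MP_6b2d39_agCr

private theorem wm_half (k : ℕ) :
    ((k * (k + 1) / 2 : ℕ) : ℤ) = (((k + 1).choose 2 : ℕ) : ℤ) := by
  rw [Nat.choose_two_right, Nat.add_sub_cancel, Nat.mul_comm]

private theorem wm_N {d : ℕ} :
    ((d + 1 : ℕ) : ℤ) * (d + 1 : ℕ) ≤ 2 * (((d + 2).choose 2 : ℕ) : ℤ) := by
  have h1 : 2 * (d + 2).choose 2 = (d + 2) * (d + 1) := by
    rw [Nat.choose_two_right]
    have h2 : d + 2 - 1 = d + 1 := rfl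
    rw [h2]
    have h3 : 2 ∣ (d + 2) * (d + 1) := by
      rw [mul_comm]
      exact (Nat.even_mul_succ_self (d + 1)).two_dvd
    exact Nat.mul_div_cancel' h3
  have h2 : (d + 1) * (d + 1) ≤ 2 * (d + 2).choose 2 := by
    rw [h1]
    exact Nat.mul_le_mul_right _ (by omega)
  exact_mod_cast h2

/-- `(3 A + 1 + k) z ≤ F` for `k = m + 1`, `A ≤ m` -/
private theorem wm_big {A m z q N : ℕ} {F : ℤ} (hA : 1 ≤ A) (hAm : A ≤ m) (hz : z ≤ q * N)
    (hF : 6 * (m : ℤ) * (q * N : ℕ) ≤ F) : (((3 * A + 1 : ℕ) : ℤ) + ((m + 1 : ℕ) : ℤ)) * z ≤ F := by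
  refine le_trans ?_ hF
  have h1 : 3 * A + 1 + (m + 1) ≤ 6 * m := by omega
  have h2 : (3 * A + 1 + (m + 1)) * z ≤ 6 * m * (q * N) := Nat.mul_le_mul h1 hz
  exact_mod_cast h2

/-- the case `v ≤ -W` -/
theorem neg_m {n d A M q X W : ℕ} (h : Nt A A (d + 1) q X W) (hMW : M ≤ W)
    (hMq : 3200 * M * q ≤ d + 1) {μ : Fin n → ℕ} (hμ : ∀ i, μ i ≤ M) (hAM : A ≤ M)
    (hF : ∀ m, A ≤ m → m ≤ M → 80 * (m : ℤ) * (q * (d + 1) : ℕ) ≤ mle μ m)
    (hv : vd d μ ≤ -(W : ℤ)) :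
    EmpQ (dgm (tri (d + 1)) (d + 1)) μ Finset.univ := by
  have hq3 := h.hq
  have hq : 1 ≤ q := by omega
  have hA := h.hA
  obtain ⟨μ', h1, h2, h3, h4⟩ := lower_m hμ hv
  refine emp_mul h1 (emp_rq hq (by omega) ?_)
  obtain ⟨J, hJ⟩ : ∃ J : Finset (Fin n), J = Finset.univ.filter (fun i => μ' i ≤ A) := ⟨_, rfl⟩
  obtain ⟨O, hO⟩ : ∃ O : Finset (Fin n), O = Finset.univ.filter (fun i => ¬ μ' i ≤ A) := ⟨_, rfl⟩
  have hu : (Finset.univ : Finset (Fin n)) = J ∪ O := by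
    rw [hJ, hO, Finset.filter_union_filter_not_eq]
  have hJO : Disjoint J O := by
    rw [hJ, hO]
    exact Finset.disjoint_filter_filter_not _ _ _
  have hms : ∀ t : Finset (Fin n), ms μ' t = ∑ i ∈ t, (((μ' i + 1).choose 2 : ℕ) : ℤ) := by
    intro t
    unfold ms
    exact Finset.sum_congr rfl fun i _ => wm_half _
  have hqN' : q ≤ d + 1 := by
    have h5 : 1 * q ≤ 3200 * A * q := Nat.mul_le_mul_right q (by omega)
    have := h.hqN
    omega
  obtain ⟨-, hz2⟩ := rq_z hqN'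
  have hW8 := h.hW0
  have hWz : 8 * (W : ℤ) ≤ (d + 1 : ℕ) := by exact_mod_cast hW8
  have hMWz : (M : ℤ) ≤ W := by exact_mod_cast hMW
  have hqNz : ((d + 1 : ℕ) : ℤ) ≤ (q * (d + 1) : ℕ) := by
    have : 1 * (d + 1) ≤ q * (d + 1) := Nat.mul_le_mul_right _ hq
    exact_mod_cast (by omega : d + 1 ≤ q * (d + 1))
  -- the masses
  have hF' : ∀ m, A ≤ m → m ≤ M → 80 * (m : ℤ) * (q * (d + 1) : ℕ) ≤ mle μ' m := by
    intro m hm1 hm2
    refine le_trans (le_min (hF m hm1 hm2) ?_) (h4 m)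
    have e1 : 3200 * m * q ≤ d + 1 := (Nat.mul_le_mul_right _ (Nat.mul_le_mul_left _ hm2)).trans hMq
    have e2 : 3200 * m * q * (d + 1) ≤ (d + 1) * (d + 1) := Nat.mul_le_mul_right _ e1
    have e3 : (3200 * m * q * (d + 1) : ℤ) ≤ ((d + 1 : ℕ) : ℤ) * (d + 1 : ℕ) := by
      exact_mod_cast e2
    have e4 := wm_N (d := d)
    have e5 : (80 : ℤ) * (m : ℤ) * (q * (d + 1) : ℕ) = 80 * (m * q * (d + 1)) := by
      push_cast
      ring
    have e6 : (3200 * m * q * (d + 1) : ℤ) = 3200 * (m * q * (d + 1)) := by ring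
    have e7 : (0 : ℤ) ≤ (m : ℤ) * q * (d + 1) := by positivity
    rw [e5]
    rw [e6] at e3
    linarith
  have hqz : 0 ≤ ((q * (d + 1) : ℕ) : ℤ) := by positivity
  have key : ∀ m, A ≤ m → m ≤ M → 60 * (m : ℤ) * (q * (d + 1) : ℕ) ≤ vd d μ' + mle μ' m := by
    intro m hm1 hm2
    have e1 := hF' m hm1 hm2
    have e2 : (1 : ℤ) ≤ m := by exact_mod_cast hA.trans hm1
    have e3 : 1 * ((q * (d + 1) : ℕ) : ℤ) ≤ m * (q * (d + 1) : ℕ) :=
      mul_le_mul_of_nonneg_right e2 hqz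
    linarith
  rw [hu]
  refine ar_negM (at_of h) (row_t h) hJO (fun i hi => ?_) (v0 := vd d μ') (fun j hj => ?_) ?_ ?_ h2
    (by linarith)
  · rw [hJ, Finset.mem_filter] at hi
    exact hi.2
  · rw [hO, Finset.mem_filter] at hj
    obtain ⟨m, hm⟩ : ∃ m, μ' j = m + 1 := ⟨μ' j - 1, by omega⟩
    have hm1 : A ≤ m := by omega
    have hm2 : m ≤ M := by
      have := (h1 j).trans (hμ j)
      omega
    have e1 : (J ∪ O).filter (fun i => μ' i < μ' j) = Finset.univ.filter (fun i => μ' i ≤ m) := by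
      rw [← hu, hm]
      refine Finset.filter_congr fun i _ => ?_
      omega
    rw [e1, hms, hm]
    refine wm_big hA hm1 hz2 ?_
    have e2 := key m hm1 hm2
    have e3 : (0 : ℤ) ≤ m * (q * (d + 1) : ℕ) := by positivity
    have e4 : mle μ' m = ∑ i ∈ Finset.univ.filter (fun i => μ' i ≤ m),
        (((μ' i + 1).choose 2 : ℕ) : ℤ) := rfl
    rw [← e4]
    linarith
  · have e1 := rq_sum (N := d + 1) hq
    have e2 : ∑ b ∈ Finset.range ((d + 1 + q - 1) / q), (rq q (d + 1) b : ℤ) =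
        (((d + 1 + 1).choose 2 : ℕ) : ℤ) := by
      rw [← e1]
      push_cast
      rfl
    rw [e2, ← hu, hms]
    unfold vd
    ring
  · have e1 := key A le_rfl hAM
    have e2 : ms μ' J = mle μ' A := by
      rw [hms, hJ]
      rfl
    have e3 : 40 * (A : ℤ) * (rq q (d + 1) 0 : ℕ) ≤ 40 * A * (q * (d + 1) : ℕ) :=
      mul_le_mul_of_nonneg_left (by exact_mod_cast hz2) (by positivity)
    have e4 : (0 : ℤ) ≤ A * (q * (d + 1) : ℕ) := by positivity
    rw [e2]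
    linarith

/-- the case `W ≤ v ≤ W + A ^ 2` -/
theorem pos_m {n d A M q X W : ℕ} (h : Nt A A (d + 1) q X W)
    {μ : Fin n → ℕ} (hμ : ∀ i, μ i ≤ M) (hAM : A ≤ M)
    (hF : ∀ m, A ≤ m → m ≤ M → 80 * (m : ℤ) * (q * (d + 1) : ℕ) ≤ vd d μ + mle μ m)
    (hv1 : (W : ℤ) ≤ vd d μ) (hv2 : vd d μ ≤ W + A ^ 2) :
    EmpQ (dgm (tri (d + 1)) (d + 1))
      (Sum.elim μ (fun _ => 1) : Fin n ⊕ Fin (vd d μ).toNat → ℕ) Finset.univ := by
  have hq3 := h.hq
  have hq : 1 ≤ q := by omega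
  have hA := h.hA
  refine emp_rq hq (by omega) ?_
  obtain ⟨v, hvd⟩ : ∃ v, v = vd d μ := ⟨_, rfl⟩
  rw [← hvd] at hv1 hv2 hF ⊢
  have hv0 : (0 : ℤ) ≤ v := le_trans (by positivity) hv1
  obtain ⟨m, hmd⟩ : ∃ m : Fin n ⊕ Fin v.toNat → ℕ, m = Sum.elim μ (fun _ => 1) := ⟨_, rfl⟩
  rw [← hmd]
  have hml : ∀ i, m (Sum.inl i) = μ i := fun i => by rw [hmd]; rfl
  have hmr : ∀ i, m (Sum.inr i) = 1 := fun i => by rw [hmd]; rfl
  obtain ⟨J0, hJ0⟩ : ∃ J : Finset (Fin n), J = Finset.univ.filter (fun i => μ i ≤ A) := ⟨_, rfl⟩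
  obtain ⟨O0, hO0⟩ : ∃ O : Finset (Fin n), O = Finset.univ.filter (fun i => ¬ μ i ≤ A) := ⟨_, rfl⟩
  have hu0 : J0 ∪ O0 = (Finset.univ : Finset (Fin n)) := by
    rw [hJ0, hO0, Finset.filter_union_filter_not_eq]
  have hJO0 : Disjoint J0 O0 := by
    rw [hJ0, hO0]
    exact Finset.disjoint_filter_filter_not _ _ _
  have hu : (Finset.univ : Finset (Fin n ⊕ Fin v.toNat)) =
      J0.map Function.Embedding.inl ∪ O0.map Function.Embedding.inl ∪
        (Finset.univ : Finset (Fin v.toNat)).map Function.Embedding.inr := by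
    rw [← Finset.map_union, hu0]
    ext x
    rcases x with x | x <;> simp
  have hJOm : J0.map Function.Embedding.inl ∪ O0.map Function.Embedding.inl =
      ((Finset.univ : Finset (Fin n)).map Function.Embedding.inl :
        Finset (Fin n ⊕ Fin v.toNat)) := by
    rw [← Finset.map_union, hu0]
  have hinl : ∀ t : Finset (Fin n), ms m (t.map Function.Embedding.inl) =
      ∑ i ∈ t, (((μ i + 1).choose 2 : ℕ) : ℤ) := by
    intro t
    unfold ms
    rw [Finset.sum_map]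
    refine Finset.sum_congr rfl fun i _ => ?_
    rw [Function.Embedding.inl_apply, hml]
    exact wm_half _
  have hqN' : q ≤ d + 1 := by
    have h5 : 1 * q ≤ 3200 * A * q := Nat.mul_le_mul_right q (by omega)
    have := h.hqN
    omega
  obtain ⟨-, hz2⟩ := rq_z hqN'
  rw [hu]
  have hcard : ((Finset.univ : Finset (Fin v.toNat)).map
      (Function.Embedding.inr : Fin v.toNat ↪ Fin n ⊕ Fin v.toNat)).card = v.toNat := by
    rw [Finset.card_map, Finset.card_univ, Fintype.card_fin]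
  refine ar_posM (at_of h) (row_t h) ?_ ?_ ?_ ?_ ?_ ?_ ?_ ?_ ?_
  · rw [Finset.disjoint_map]
    exact hJO0
  · rw [hJOm, Finset.disjoint_left]
    intro x hx hx'
    rw [Finset.mem_map] at hx hx'
    obtain ⟨b, _, hb⟩ := hx'
    obtain ⟨a, _, rfl⟩ := hx
    exact Sum.inr_ne_inl hb
  · intro i hi
    rw [Finset.mem_map] at hi
    obtain ⟨a, ha, rfl⟩ := hi
    rw [Function.Embedding.inl_apply, hml]
    rw [hJ0, Finset.mem_filter] at ha
    exact ha.2
  · intro i hi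
    rw [Finset.mem_map] at hi
    obtain ⟨a, _, rfl⟩ := hi
    rw [Function.Embedding.inr_apply, hmr]
  · intro j hj
    rw [Finset.mem_map] at hj
    obtain ⟨j, hj, rfl⟩ := hj
    rw [hO0, Finset.mem_filter] at hj
    obtain ⟨k, hk⟩ : ∃ k, μ j = k + 1 := ⟨μ j - 1, by omega⟩
    have hk1 : A ≤ k := by omega
    have hk2 : k ≤ M := by
      have := hμ j
      omega
    have e1 : (J0.map Function.Embedding.inl ∪ O0.map Function.Embedding.inl).filter
        (fun i => m i < m (Sum.inl j : Fin n ⊕ Fin v.toNat)) =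
        (Finset.univ.filter (fun i => μ i ≤ k)).map Function.Embedding.inl := by
      rw [hJOm]
      ext x
      rw [Finset.mem_filter, Finset.mem_map, Finset.mem_map]
      constructor
      · rintro ⟨⟨a, _, rfl⟩, h2⟩
        refine ⟨a, ?_, rfl⟩
        rw [Function.Embedding.inl_apply, hml, hml, hk] at h2
        rw [Finset.mem_filter]
        exact ⟨Finset.mem_univ a, by omega⟩
      · rintro ⟨a, ha, rfl⟩
        rw [Finset.mem_filter] at ha
        refine ⟨⟨a, Finset.mem_univ a, rfl⟩, ?_⟩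
        rw [Function.Embedding.inl_apply, hml, hml, hk]
        omega
    rw [Function.Embedding.inl_apply, e1, hinl, hml, hk, hcard, Int.toNat_of_nonneg hv0]
    refine wm_big hA hk1 hz2 ?_
    have e2 := hF k hk1 hk2
    have e3 : (0 : ℤ) ≤ k * (q * (d + 1) : ℕ) := by positivity
    have e4 : mle μ k = ∑ i ∈ Finset.univ.filter (fun i => μ i ≤ k),
        (((μ i + 1).choose 2 : ℕ) : ℤ) := rfl
    rw [← e4]
    linarith
  · have e1 := rq_sum (N := d + 1) hq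
    have e2 : ∑ b ∈ Finset.range ((d + 1 + q - 1) / q), (rq q (d + 1) b : ℤ) =
        (((d + 1 + 1).choose 2 : ℕ) : ℤ) := by
      rw [← e1]
      push_cast
      rfl
    rw [e2, hcard, Int.toNat_of_nonneg hv0, hJOm, hinl, hvd]
    unfold vd
    ring
  · rw [hcard, Int.toNat_of_nonneg hv0, hinl]
    have e1 := hF A le_rfl hAM
    have e2 : mle μ A = ∑ i ∈ J0, (((μ i + 1).choose 2 : ℕ) : ℤ) := by
      rw [hJ0]
      rfl
    have e3 : 40 * (A : ℤ) * (rq q (d + 1) 0 : ℕ) ≤ 40 * A * (q * (d + 1) : ℕ) :=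
      mul_le_mul_of_nonneg_left (by exact_mod_cast hz2) (by positivity)
    have e4 : (0 : ℤ) ≤ A * (q * (d + 1) : ℕ) := by positivity
    rw [← e2]
    linarith
  · rw [hcard]
    omega
  · rw [hcard]
    have h3 : ((v.toNat : ℕ) : ℤ) ≤ ((W + A ^ 2 : ℕ) : ℤ) := by
      rw [Int.toNat_of_nonneg hv0]
      push_cast
      exact hv2
    exact_mod_cast h3

/-- the window in the degree `d`, all scales -/
theorem win_m {n d A M q X W : ℕ} (h : Nt A A (d + 1) q X W) (hMW : M ≤ W)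
    (hMq : 3200 * M * q ≤ d + 1) {μ : Fin n → ℕ} (hμ : ∀ i, μ i ≤ M) (hAM : A ≤ M)
    (hF : ∀ m, A ≤ m → m ≤ M →
      80 * (m : ℤ) * (q * (d + 1) : ℕ) ≤ mle μ m + max (vd d μ) 0)
    (hv : (W : ℤ) ≤ |vd d μ|) :
    General (fun P => (Module.finrank ℂ (curves d μ P) : ℤ) = max (vd d μ) 0) := by
  rcases le_or_gt 0 (vd d μ) with h0 | h0
  · have hv1 : (W : ℤ) ≤ vd d μ := by rwa [abs_of_nonneg h0] at hv
    rw [max_eq_left h0] at hF
    obtain ⟨k, hk1, hk2⟩ := upper_u h.hA hv1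
    have hW : (0 : ℤ) ≤ W := by positivity
    refine app_u (k := k) (c := A) μ (hW.trans hk1) (general_of_emp (pos_m h (M := M)
      (fun i => ?_) hAM (fun m hm1 hm2 => ?_) hk1 hk2))
    · refine Fin.addCases (fun j => ?_) (fun j => ?_) i
      · rw [Fin.append_left]
        exact hμ j
      · rw [Fin.append_right]
        exact hAM
    · rw [mle_append hm1, vd_append]
      have := hF m hm1 hm2
      linarith
  · have hv1 : vd d μ ≤ -(W : ℤ) := by
      rw [abs_of_neg h0] at hv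
      linarith
    rw [max_eq_right h0.le] at hF
    exact general_of_emp (Pool.Agent.Lib.MP_6b2d39_agHy.emp_inl
      (neg_m h hMW hMq hμ hAM (fun m hm1 hm2 => by
        have := hF m hm1 hm2
        linarith) hv1))

end Pool.Agent.Lib.MP_6b2d39_agU2
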