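import Pool.Agent.Lib.MP_6b2d39_agU2.EndT
import Pool.Agent.Lib.MP_6b2d39_agU2.RowT
import Pool.Agent.Lib.MP_6b2d39_agU2.LowT
import Pool.Agent.Lib.MP_6b2d39_agUn.EmpT
import Pool.Agent.Lib.MP_6b2d39_agUn.AppU
import Pool.Agent.Lib.MP_6b2d39_agHl.ToGen
import Pool.Agent.Lib.MP_6b2d39_agHy.EmpCut

set_option autoImplicit false

namespace Pool.Agent.Lib.MP_6b2d39_agU2

open Pool.Agent.Lib.MP_6b2d39_agUn Pool.Agent.Lib.MP_6b2d39_agArr Pool.Agent.Lib.MP_6b2d39_agNw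
  Pool.Agent.Lib.MP_6b2d39_agHl Pool.Agent.Lib.MP_6b2d39_agCr

private theorem wt_half (k : ℕ) :
    ((k * (k + 1) / 2 : ℕ) : ℤ) = (((k + 1).choose 2 : ℕ) : ℤ) := by
  rw [Nat.choose_two_right, Nat.add_sub_cancel, Nat.mul_comm]

private theorem wt_N {d : ℕ} : ((d + 1 : ℕ) : ℤ) * (d + 1 : ℕ) ≤ 2 * (((d + 2).choose 2 : ℕ) : ℤ) := by
  have h1 : 2 * (d + 2).choose 2 = (d + 2) * (d + 1) := by
    rw [Nat.choose_two_right]
    have h2 : d + 2 - 1 = d + 1 := rfl
    rw [h2]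
    have h3 : 2 ∣ (d + 2) * (d + 1) := by
      rw [mul_comm]
      exact (Nat.even_mul_succ_self (d + 1)).two_dvd
    exact Nat.mul_div_cancel' h3
  have h2 : (d + 1) * (d + 1) ≤ 2 * (d + 2).choose 2 := by
    rw [h1]
    exact Nat.mul_le_mul_right _ (by omega)
  exact_mod_cast h2

/-- the case `v ≤ -W` -/
theorem neg_t {n d A M q X W : ℕ} (h : Nt A M (d + 1) q X W) (hN : 20 ≤ d + 1)
    {μ : Fin n → ℕ} (hμ : ∀ i, μ i ≤ M) {s : Finset (Fin n)} (hs : ∀ i ∈ s, μ i ≤ A)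
    (hS : (((d + 2).choose 2 : ℕ) : ℤ) ≤ 20 * mc s μ) (hv : vd d μ ≤ -(W : ℤ)) :
    EmpQ (dgm (tri (d + 1)) (d + 1)) μ Finset.univ := by
  have hq : 1 ≤ q := by
    have := h.hq
    omega
  obtain ⟨μ', h1, h2, h3, h4⟩ := lower_t s hμ hv
  refine emp_mul h1 (emp_rq hq (by omega) ?_)
  have hu : (Finset.univ : Finset (Fin n)) = s ∪ (Finset.univ \ s) := by
    rw [Finset.union_sdiff_of_subset (Finset.subset_univ s)]
  have hms : ∀ t : Finset (Fin n), ms μ' t = mc t μ' := by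
    intro t
    unfold ms mc
    exact Finset.sum_congr rfl fun i _ => wt_half _
  rw [hu]
  have hW8 := h.hW0
  have hWz : 8 * (W : ℤ) ≤ (d + 1 : ℕ) := by exact_mod_cast hW8
  have hMW : (M : ℤ) ≤ W := by exact_mod_cast h.hMW
  have hN' : (20 : ℤ) ≤ (d + 1 : ℕ) := by exact_mod_cast hN
  refine ar_negT (at_of h) (row_t h) Finset.disjoint_sdiff (fun i hi => (h1 i).trans (hs i hi))
    (fun i _ => (h1 i).trans (hμ i)) (v0 := vd d μ') ?_ ?_ h2 (by linarith)
  · have e1 := rq_sum (N := d + 1) hq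
    have e2 : ∑ b ∈ Finset.range ((d + 1 + q - 1) / q), (rq q (d + 1) b : ℤ) =
        (((d + 1 + 1).choose 2 : ℕ) : ℤ) := by
      rw [← e1]
      push_cast
      rfl
    rw [e2, ← hu, hms]
    unfold vd mc
    ring
  · have e1 : (40 * M * rq q (d + 1) 0 * 80 : ℤ) ≤ ((d + 1 : ℕ) : ℤ) * (d + 1 : ℕ) := by
      exact_mod_cast mass_t h
    have e2 := wt_N (d := d)
    have e3 : ((d + 1 : ℕ) : ℤ) * (d + 1 : ℕ) ≤ 40 * mc s μ' := by
      rcases min_choice (mc s μ) (((d + 2).choose 2 : ℕ) : ℤ) with h5 | h5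
      · rw [h5] at h4
        linarith
      · rw [h5] at h4
        have : (0 : ℤ) ≤ (((d + 2).choose 2 : ℕ) : ℤ) := by positivity
        linarith
    have e4 : (20 : ℤ) * (d + 1 : ℕ) ≤ ((d + 1 : ℕ) : ℤ) * (d + 1 : ℕ) :=
      mul_le_mul_of_nonneg_right hN' (by positivity)
    rw [hms]
    linarith

/-- the case `W ≤ v ≤ W + A ^ 2` -/
theorem pos_t {n d A M q X W : ℕ} (h : Nt A M (d + 1) q X W)
    {μ : Fin n → ℕ} (hμ : ∀ i, μ i ≤ M) {s : Finset (Fin n)} (hs : ∀ i ∈ s, μ i ≤ A)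
    (hS : (((d + 2).choose 2 : ℕ) : ℤ) ≤ 20 * (vd d μ + mc s μ)) (hv1 : (W : ℤ) ≤ vd d μ)
    (hv2 : vd d μ ≤ W + A ^ 2) :
    EmpQ (dgm (tri (d + 1)) (d + 1))
      (Sum.elim μ (fun _ => 1) : Fin n ⊕ Fin (vd d μ).toNat → ℕ) Finset.univ := by
  have hq : 1 ≤ q := by
    have := h.hq
    omega
  refine emp_rq hq (by omega) ?_
  obtain ⟨v, hvd⟩ : ∃ v, v = vd d μ := ⟨_, rfl⟩
  rw [← hvd] at hv1 hv2 hS ⊢
  have hv0 : (0 : ℤ) ≤ v := le_trans (by positivity) hv1
  have hu : (Finset.univ : Finset (Fin n ⊕ Fin v.toNat)) =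
      s.map Function.Embedding.inl ∪ (Finset.univ \ s).map Function.Embedding.inl ∪
        (Finset.univ : Finset (Fin v.toNat)).map Function.Embedding.inr := by
    ext x
    rcases x with x | x
    · by_cases hx : x ∈ s
      · simp [hx]
      · simp [hx]
    · simp
  have hinl : ∀ t : Finset (Fin n), ms (Sum.elim μ (fun _ => 1) : Fin n ⊕ Fin v.toNat → ℕ)
      (t.map Function.Embedding.inl) = mc t μ := by
    intro t
    unfold ms mc
    rw [Finset.sum_map]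
    exact Finset.sum_congr rfl fun i _ => wt_half _
  rw [hu]
  have hcard : ((Finset.univ : Finset (Fin v.toNat)).map
      (Function.Embedding.inr : Fin v.toNat ↪ Fin n ⊕ Fin v.toNat)).card = v.toNat := by
    rw [Finset.card_map, Finset.card_univ, Fintype.card_fin]
  refine ar_posT (at_of h) (row_t h) ?_ ?_ ?_ ?_ ?_ ?_ ?_ ?_ ?_
  · rw [Finset.disjoint_map]
    exact Finset.disjoint_sdiff
  · rw [Finset.disjoint_left]
    intro x hx hx'
    rw [Finset.mem_union, Finset.mem_map, Finset.mem_map] at hx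
    rw [Finset.mem_map] at hx'
    obtain ⟨b, _, hb⟩ := hx'
    rcases hx with ⟨a, _, rfl⟩ | ⟨a, _, rfl⟩
    · exact Sum.inr_ne_inl hb
    · exact Sum.inr_ne_inl hb
  · intro i hi
    rw [Finset.mem_map] at hi
    obtain ⟨a, ha, rfl⟩ := hi
    exact hs a ha
  · intro i hi
    rw [Finset.mem_map] at hi
    obtain ⟨a, _, rfl⟩ := hi
    exact hμ a
  · intro i hi
    rw [Finset.mem_map] at hi
    obtain ⟨a, _, rfl⟩ := hi
    rfl
  · have e1 := rq_sum (N := d + 1) hq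
    have e2 : ∑ b ∈ Finset.range ((d + 1 + q - 1) / q), (rq q (d + 1) b : ℤ) =
        (((d + 1 + 1).choose 2 : ℕ) : ℤ) := by
      rw [← e1]
      push_cast
      rfl
    have e3 : s.map Function.Embedding.inl ∪ (Finset.univ \ s).map Function.Embedding.inl =
        ((Finset.univ : Finset (Fin n)).map Function.Embedding.inl :
          Finset (Fin n ⊕ Fin v.toNat)) := by
      rw [← Finset.map_union, Finset.union_sdiff_of_subset (Finset.subset_univ s)]
    rw [e2, hcard, Int.toNat_of_nonneg hv0, e3, hinl, hvd]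
    unfold vd mc
    ring
  · rw [hcard, Int.toNat_of_nonneg hv0, hinl]
    have e1 : (40 * M * rq q (d + 1) 0 * 80 : ℤ) ≤ ((d + 1 : ℕ) : ℤ) * (d + 1 : ℕ) := by
      exact_mod_cast mass_t h
    have e2 := wt_N (d := d)
    have e3 : (0 : ℤ) ≤ ((d + 1 : ℕ) : ℤ) * (d + 1 : ℕ) := by positivity
    linarith
  · rw [hcard]
    omega
  · rw [hcard]
    have h3 : ((v.toNat : ℕ) : ℤ) ≤ ((W + A ^ 2 : ℕ) : ℤ) := by
      rw [Int.toNat_of_nonneg hv0]
      push_cast
      exact hv2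
    exact_mod_cast h3

/-- the window in the degree `d` -/
theorem win_t {n d A M q X W : ℕ} (h : Nt A M (d + 1) q X W) (hN : 20 ≤ d + 1)
    {μ : Fin n → ℕ} (hμ : ∀ i, μ i ≤ M) {s : Finset (Fin n)} (hs : ∀ i ∈ s, μ i ≤ A)
    (hS : (((d + 2).choose 2 : ℕ) : ℤ) ≤ 20 * (mc s μ + max (vd d μ) 0))
    (hv : (W : ℤ) ≤ |vd d μ|) :
    General (fun P => (Module.finrank ℂ (curves d μ P) : ℤ) = max (vd d μ) 0) := by
  rcases le_or_gt 0 (vd d μ) with h0 | h0
  · have hv1 : (W : ℤ) ≤ vd d μ := by rwa [abs_of_nonneg h0] at hv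
    rw [max_eq_left h0] at hS
    obtain ⟨k, hk1, hk2⟩ := upper_u h.hA hv1
    have hW : (0 : ℤ) ≤ W := by positivity
    refine app_u (k := k) (c := A) μ (hW.trans hk1) (general_of_emp (pos_t h (fun i => ?_)
      (s := (s.map (Fin.castAddEmb k)) ∪ (Finset.univ.map (Fin.natAddEmb n))) (fun i hi => ?_)
      ?_ hk1 hk2))
    · refine Fin.addCases (fun j => ?_) (fun j => ?_) i
      · rw [Fin.append_left]
        exact hμ j
      · rw [Fin.append_right]
        exact h.hAM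
    · rw [Finset.mem_union, Finset.mem_map, Finset.mem_map] at hi
      rcases hi with ⟨a, ha, rfl⟩ | ⟨a, _, rfl⟩
      · simp only [Fin.castAddEmb_apply, Fin.append_left]
        exact hs a ha
      · simp only [Fin.natAddEmb_apply, Fin.append_right]
        exact le_rfl
    · rw [mc_append, vd_append]
      linarith
  · have hv1 : vd d μ ≤ -(W : ℤ) := by
      rw [abs_of_neg h0] at hv
      linarith
    rw [max_eq_right h0.le] at hS
    exact general_of_emp (Pool.Agent.Lib.MP_6b2d39_agHy.emp_inl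
      (neg_t h hN hμ hs (by linarith) hv1))

end Pool.Agent.Lib.MP_6b2d39_agU2
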